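import Pool.Agent.LH9.Defs
import Pool.Agent.LH48.Dec

set_option autoImplicit false

namespace Pool.LH9

open Pool.HB45 Pool.HM63 Pool.PH43 Pool.SC25 Pool.NL25

open Classical in
theorem few48 : ∃ c : ℝ, 0 < c ∧ ∃ N0 : ℕ, ∀ N ≥ N0, ∀ (h m : ℕ) (hm : m * (3 + 2) ≤ N + 1)
    (Q : Rel (N + 1)) (κ lab : Fin (N + 1) → ℕ), 1 ≤ h → (h : ℝ) ≤ c * N → Lev h Q κ → Nat' Q lab →
    m = (N + 1) / 5 → ∀ b0 : ℕ, (b0 : ℝ) ≤ N / 30000 + 1 →
    (((LE Q).filter fun g => bT Q lab (Tw hm) g < b0).card : ℝ) ≤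
      Real.exp (-(N / 100000)) * (LE Q).card := by
  obtain ⟨c, hc, N1, h1⟩ := LH48.few_flips
  refine ⟨c, hc, max N1 10000, fun N hN h m hm Q κ lab hh hhN hκ hn hmd b0 hb0 => ?_⟩
  subst hmd
  have g1 : N1 ≤ N := (le_max_left _ _).trans hN
  have g2 : 10000 ≤ N := (le_max_right _ _).trans hN
  have hN' : (10000 : ℝ) ≤ N := by exact_mod_cast g2
  have h2 := h1 N g1 h hm Q κ lab hh hhN hκ hn
  have h3 : ((LE Q).filter fun g => bT Q lab (Tw hm) g < b0).card ≤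
      ((LE Q).filter fun g => (LH48.bb hm Q lab g : ℝ) ≤ 1 / 1000 * N).card := by
    refine Finset.card_le_card fun g hg => ?_
    rw [Finset.mem_filter] at hg ⊢
    refine ⟨hg.1, ?_⟩
    have h4 : (bT Q lab (Tw hm) g : ℝ) ≤ b0 := by exact_mod_cast hg.2.le
    change (bT Q lab (Tw hm) g : ℝ) ≤ 1 / 1000 * N
    linarith
  calc (((LE Q).filter fun g => bT Q lab (Tw hm) g < b0).card : ℝ) ≤
        (((LE Q).filter fun g => (LH48.bb hm Q lab g : ℝ) ≤ 1 / 1000 * N).card : ℝ) := by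
        exact_mod_cast h3
    _ ≤ _ := h2
    _ ≤ _ := by
        refine mul_le_mul_of_nonneg_right ?_ (Nat.cast_nonneg _)
        rw [Real.exp_le_exp]
        linarith

end Pool.LH9
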