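import Pool.Agent.LH9.Defs
import Pool.Agent.NL25.Rare
import Pool.Agent.NL25.FlipX
import Pool.Agent.LH9.FewS48

set_option autoImplicit false

/-!
# LH9/Few: few flips are rare (STUB)
-/

namespace Pool.LH9

open Pool.HB45 Pool.HM63 Pool.PH43 Pool.SC25 Pool.NL25

open Classical in
/-- PROOF. `all_win_B` with `r = 1`, `c = 1/2`: `∑ (1/2)^bT ≤ ∑ (1 - 1/1536)^(m - nbad)`. Words with `nbad < B`,
`B = (N+1)/10 + 1`: exponent `≥ N/10 - 2`, so `≤ 2 e^(-N/15360)`; the others: share `≤ e^(-N/200)` (`bad_zero`).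
`#{bT < b0} (1/2)^b0 ≤ ∑ (1/2)^bT` and `2^b0 ≤ 2 e^(N/43000)`: total `≤ 6 e^(-N/24000) ≤ e^(-N/100000)`. -/
theorem few : ∃ c : ℝ, 0 < c ∧ ∃ N0 : ℕ, ∀ N ≥ N0, ∀ (h m : ℕ) (hm : m * (3 + 2) ≤ N + 1)
    (Q : Rel (N + 1)) (κ lab : Fin (N + 1) → ℕ), 1 ≤ h → (h : ℝ) ≤ c * N → Lev h Q κ → Nat' Q lab →
    m = (N + 1) / 5 → ∀ b0 : ℕ, (b0 : ℝ) ≤ N / 30000 + 1 →
    (((LE Q).filter fun g => bT Q lab (Tw hm) g < b0).card : ℝ) ≤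
      Real.exp (-(N / 100000)) * (LE Q).card :=
  few48

end Pool.LH9
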