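import Pool.Agent.LH9.Defs
import Pool.Agent.NL25.Conc2

set_option autoImplicit false

/-!
# LH9/LowFS: lower bound of `w_j` with the true number of levels, proofs
-/

namespace Pool.LH9

open Pool.HB45 Pool.HM63 Pool.PH43 Pool.SC25 Pool.NL25

/-- a set of words that carries half of `MG`, with at most `w_j` words at each of at most `K` levels -/
theorem low_genF {N j : ℕ} {Q : Rel (N + 1)} {lab : Fin (N + 1) → ℕ} {s D K : ℝ}
    (S : Finset (Equiv.Perm (Fin (N + 1)))) (hS : S ⊆ LE Q)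
    (hw : ∀ g ∈ S, w Q lab (des lab g) ≤ w Q lab j)
    (hD : ∀ g ∈ S, s * Xf lab g / 2 ≤ s * (N - 2 * j) / 2 + D)
    (hK : ((S.image (des lab)).card : ℝ) ≤ K)
    (hhalf : MG Q lab s ≤ 2 * ∑ g ∈ S, Real.exp (s * Xf lab g / 2)) :
    MG Q lab s * Real.exp (-D) ≤ 2 * K * (w Q lab j * Real.exp (s * (N - 2 * j) / 2)) := by
  classical
  have hcard : (S.card : ℝ) ≤ w Q lab j * K := by
    have h6 : S.card ≤ w Q lab j * (S.image (des lab)).card := by
      apply Finset.card_le_mul_card_image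
      intro i hi
      obtain ⟨g, hg, rfl⟩ := Finset.mem_image.1 hi
      refine le_trans (Finset.card_le_card ?_) (hw g hg)
      intro g' hg'
      rw [Finset.mem_filter] at hg'
      rw [Finset.mem_filter]
      exact ⟨hS hg'.1, hg'.2⟩
    have h7 : (S.card : ℝ) ≤ w Q lab j * (S.image (des lab)).card := by exact_mod_cast h6
    exact h7.trans (mul_le_mul_of_nonneg_left hK (Nat.cast_nonneg _))
  have h11 : ∑ g ∈ S, Real.exp (s * Xf lab g / 2) ≤
      (w Q lab j * K) * Real.exp (s * (N - 2 * j) / 2 + D) := by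
    have h12 : ∑ g ∈ S, Real.exp (s * Xf lab g / 2) ≤
        ∑ g ∈ S, Real.exp (s * (N - 2 * j) / 2 + D) :=
      Finset.sum_le_sum fun g hg => Real.exp_le_exp.2 (hD g hg)
    rw [Finset.sum_const, nsmul_eq_mul] at h12
    exact h12.trans (mul_le_mul_of_nonneg_right hcard (Real.exp_pos _).le)
  have h13 : Real.exp (s * (N - 2 * j) / 2 + D) * Real.exp (-D) =
      Real.exp (s * (N - 2 * j) / 2) := by
    rw [← Real.exp_add]
    congr 1
    ring
  have h14 : MG Q lab s ≤ 2 * ((w Q lab j * K) * Real.exp (s * (N - 2 * j) / 2 + D)) := by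
    linarith
  have h15 := mul_le_mul_of_nonneg_right h14 (Real.exp_pos (-D)).le
  refine h15.trans (le_of_eq ?_)
  rw [← h13]
  ring

open Classical in
/-- left side, from the two tail bounds -/
theorem lower_leftF_of {N j : ℕ} {Q : Rel (N + 1)} {lab : Fin (N + 1) → ℕ}
    {δ s : ℝ} (hδ : 0 < δ) (hs : 0 < s)
    (hu : ∑ g ∈ (LE Q).filter (fun g => GG Q + s * N / 6 + 2 * δ * |s| * N ≤ Xf lab g),
      Real.exp (s * Xf lab g / 2) ≤ 1 / 4 * MG Q lab s)
    (hd : ∑ g ∈ (LE Q).filter (fun g => Xf lab g ≤ GG Q + s * N / 6 - 2 * δ * |s| * N),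
      Real.exp (s * Xf lab g / 2) ≤ 1 / 4 * MG Q lab s)
    (hj : (j : ℝ) = (N - (GG Q + s * N / 6)) / 2 + δ * s * N)
    (hinc : ∀ i ≤ j, w Q lab i ≤ w Q lab j) :
    MG Q lab s * Real.exp (-(2 * δ * s ^ 2 * N)) ≤
      2 * (2 * δ * |s| * N + 1) * (w Q lab j * Real.exp (s * (N - 2 * j) / 2)) := by
  rw [abs_of_pos hs] at hu hd ⊢
  have ht : 0 ≤ 2 * δ * s * N := by positivity
  refine low_genF _ (Finset.filter_subset _ _) ?_ ?_ ?_ (half_mid hu hd)
  · intro g hg
    rw [Finset.mem_filter] at hg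
    apply hinc
    have h1 := hg.2.1
    unfold Xf at h1
    have h2 : (des lab g : ℝ) ≤ j := by linarith
    exact_mod_cast h2
  · intro g hg
    rw [Finset.mem_filter] at hg
    have h1 := mul_le_mul_of_nonneg_left hg.2.2.le hs.le
    have h3 := congrArg (fun t => s * t) hj
    nlinarith
  · have h9 : Finset.image (des lab) ((LE Q).filter fun g =>
        GG Q + s * N / 6 - 2 * δ * s * N < Xf lab g ∧
          Xf lab g < GG Q + s * N / 6 + 2 * δ * s * N) ⊆
        Finset.Ico (j - ⌊2 * δ * s * N⌋₊) j := by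
      intro i hi
      obtain ⟨g, hg, rfl⟩ := Finset.mem_image.1 hi
      rw [Finset.mem_filter] at hg
      have h1 := hg.2.1
      have h2 := hg.2.2
      unfold Xf at h1 h2
      have h3 : (des lab g : ℝ) < j := by linarith
      have h4 : des lab g < j := by exact_mod_cast h3
      have h5 : j - des lab g ≤ ⌊2 * δ * s * N⌋₊ := by
        refine Nat.le_floor ?_
        rw [Nat.cast_sub h4.le]
        linarith
      rw [Finset.mem_Ico]
      omega
    have h10 : ((Finset.image (des lab) ((LE Q).filter fun g =>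
        GG Q + s * N / 6 - 2 * δ * s * N < Xf lab g ∧
          Xf lab g < GG Q + s * N / 6 + 2 * δ * s * N)).card : ℝ) ≤ ⌊2 * δ * s * N⌋₊ := by
      have h11 := Finset.card_le_card h9
      rw [Nat.card_Ico] at h11
      exact_mod_cast h11.trans (by omega)
    have h12 := Nat.floor_le ht
    linarith

open Classical in
/-- right side, from the two tail bounds -/
theorem lower_rightF_of {N j : ℕ} {Q : Rel (N + 1)} {lab : Fin (N + 1) → ℕ}
    {δ s : ℝ} (hδ : 0 < δ) (hs : s < 0)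
    (hu : ∑ g ∈ (LE Q).filter (fun g => GG Q + s * N / 6 + 2 * δ * |s| * N ≤ Xf lab g),
      Real.exp (s * Xf lab g / 2) ≤ 1 / 4 * MG Q lab s)
    (hd : ∑ g ∈ (LE Q).filter (fun g => Xf lab g ≤ GG Q + s * N / 6 - 2 * δ * |s| * N),
      Real.exp (s * Xf lab g / 2) ≤ 1 / 4 * MG Q lab s)
    (hj : (j : ℝ) = (N - (GG Q + s * N / 6)) / 2 + δ * s * N)
    (hdec : ∀ i, j ≤ i → w Q lab i ≤ w Q lab j) :
    MG Q lab s * Real.exp (-(2 * δ * s ^ 2 * N)) ≤
      2 * (2 * δ * |s| * N + 1) * (w Q lab j * Real.exp (s * (N - 2 * j) / 2)) := by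
  rw [abs_of_neg hs] at hu hd ⊢
  have hs' : 0 < -s := neg_pos.2 hs
  have ht : 0 ≤ 2 * δ * -s * N := by positivity
  refine low_genF _ (Finset.filter_subset _ _) ?_ ?_ ?_ (half_mid hu hd)
  · intro g hg
    rw [Finset.mem_filter] at hg
    apply hdec
    have h1 := hg.2.2
    unfold Xf at h1
    have h2 : (j : ℝ) ≤ des lab g := by linarith
    exact_mod_cast h2
  · intro g hg
    rw [Finset.mem_filter] at hg
    have h1 := mul_le_mul_of_nonneg_left hg.2.1.le (neg_pos.2 hs).le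
    have h3 := congrArg (fun t => s * t) hj
    nlinarith
  · have h9 : Finset.image (des lab) ((LE Q).filter fun g =>
        GG Q + s * N / 6 - 2 * δ * -s * N < Xf lab g ∧
          Xf lab g < GG Q + s * N / 6 + 2 * δ * -s * N) ⊆
        Finset.Ioc j (j + ⌊2 * δ * -s * N⌋₊) := by
      intro i hi
      obtain ⟨g, hg, rfl⟩ := Finset.mem_image.1 hi
      rw [Finset.mem_filter] at hg
      have h1 := hg.2.1
      have h2 := hg.2.2
      unfold Xf at h1 h2
      have h3 : (j : ℝ) < des lab g := by linarith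
      have h4 : j < des lab g := by exact_mod_cast h3
      have h5 : des lab g - j ≤ ⌊2 * δ * -s * N⌋₊ := by
        refine Nat.le_floor ?_
        rw [Nat.cast_sub h4.le]
        linarith
      rw [Finset.mem_Ioc]
      omega
    have h10 : ((Finset.image (des lab) ((LE Q).filter fun g =>
        GG Q + s * N / 6 - 2 * δ * -s * N < Xf lab g ∧
          Xf lab g < GG Q + s * N / 6 + 2 * δ * -s * N)).card : ℝ) ≤ ⌊2 * δ * -s * N⌋₊ := by
      have h11 := Finset.card_le_card h9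
      rw [Nat.card_Ioc] at h11
      exact_mod_cast h11.trans (by omega)
    have h12 := Nat.floor_le ht
    linarith

theorem lower_leftFS {N j : ℕ} {Q : Rel (N + 1)} {lab : Fin (N + 1) → ℕ} (hn : Nat' Q lab)
    {δ ε s0 s : ℝ} (hδ : 0 < δ) (hδ1 : δ ≤ 1 / 100) (hε : 0 ≤ ε) (hε1 : ε ≤ δ ^ 2)
    (hRE : RE Q lab ε s0) (hs0 : |s| * (1 + 12 * δ) ≤ s0) (hsN : 1 / δ ^ 2 ≤ s ^ 2 * N) (hs : 0 < s)
    (hj : (j : ℝ) = (N - (GG Q + s * N / 6)) / 2 + δ * s * N)
    (hinc : ∀ i ≤ j, w Q lab i ≤ w Q lab j) :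
    MG Q lab s * Real.exp (-(2 * δ * s ^ 2 * N)) ≤
      2 * (2 * δ * |s| * N + 1) * (w Q lab j * Real.exp (s * (N - 2 * j) / 2)) :=
  lower_leftF_of hδ hs (tail_X_up hn hδ hδ1 hε hε1 hRE hs0 hsN)
    (tail_X_down hn hδ hδ1 hε hε1 hRE hs0 hsN) hj hinc

theorem lower_rightFS {N j : ℕ} {Q : Rel (N + 1)} {lab : Fin (N + 1) → ℕ} (hn : Nat' Q lab)
    {δ ε s0 s : ℝ} (hδ : 0 < δ) (hδ1 : δ ≤ 1 / 100) (hε : 0 ≤ ε) (hε1 : ε ≤ δ ^ 2)
    (hRE : RE Q lab ε s0) (hs0 : |s| * (1 + 12 * δ) ≤ s0) (hsN : 1 / δ ^ 2 ≤ s ^ 2 * N) (hs : s < 0)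
    (hj : (j : ℝ) = (N - (GG Q + s * N / 6)) / 2 + δ * s * N)
    (hdec : ∀ i, j ≤ i → w Q lab i ≤ w Q lab j) :
    MG Q lab s * Real.exp (-(2 * δ * s ^ 2 * N)) ≤
      2 * (2 * δ * |s| * N + 1) * (w Q lab j * Real.exp (s * (N - 2 * j) / 2)) :=
  lower_rightF_of hδ hs (tail_X_up hn hδ hδ1 hε hε1 hRE hs0 hsN)
    (tail_X_down hn hδ hδ1 hε hε1 hRE hs0 hsN) hj hdec

end Pool.LH9
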