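import Pool.Agent.LH9.Defs
import Pool.Agent.NL25.Conc2
import Pool.Agent.LH9.LowFS

set_option autoImplicit false

/-!
# LH9/LowF: lower bound of `w_j` with the true number of levels 
-/

namespace Pool.LH9

open Pool.HB45 Pool.HM63 Pool.PH43 Pool.SC25 Pool.NL25

/-- LEFT. PROOF. Copy of `NL25.low_gen`, `lower_left_of` (NL25/LowS), but the levels met by the set `S` lie in
`(j - 2 δ s N, j]`: at most `2 δ s N + 1` of them instead of `N + 1` (`N - 2j = GG + sN/6 - 2δsN < X < GG + sN/6 + 2δsN`). -/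
theorem lower_leftF {N j : ℕ} {Q : Rel (N + 1)} {lab : Fin (N + 1) → ℕ} (hn : Nat' Q lab)
    {δ ε s0 s : ℝ} (hδ : 0 < δ) (hδ1 : δ ≤ 1 / 100) (hε : 0 ≤ ε) (hε1 : ε ≤ δ ^ 2)
    (hRE : RE Q lab ε s0) (hs0 : |s| * (1 + 12 * δ) ≤ s0) (hsN : 1 / δ ^ 2 ≤ s ^ 2 * N) (hs : 0 < s)
    (hj : (j : ℝ) = (N - (GG Q + s * N / 6)) / 2 + δ * s * N)
    (hinc : ∀ i ≤ j, w Q lab i ≤ w Q lab j) :
    MG Q lab s * Real.exp (-(2 * δ * s ^ 2 * N)) ≤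
      2 * (2 * δ * |s| * N + 1) * (w Q lab j * Real.exp (s * (N - 2 * j) / 2)) :=
  lower_leftFS hn hδ hδ1 hε hε1 hRE hs0 hsN hs hj hinc

/-- RIGHT (`s < 0`): the levels lie in `[j, j + 2 δ |s| N)`. -/
theorem lower_rightF {N j : ℕ} {Q : Rel (N + 1)} {lab : Fin (N + 1) → ℕ} (hn : Nat' Q lab)
    {δ ε s0 s : ℝ} (hδ : 0 < δ) (hδ1 : δ ≤ 1 / 100) (hε : 0 ≤ ε) (hε1 : ε ≤ δ ^ 2)
    (hRE : RE Q lab ε s0) (hs0 : |s| * (1 + 12 * δ) ≤ s0) (hsN : 1 / δ ^ 2 ≤ s ^ 2 * N) (hs : s < 0)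
    (hj : (j : ℝ) = (N - (GG Q + s * N / 6)) / 2 + δ * s * N)
    (hdec : ∀ i, j ≤ i → w Q lab i ≤ w Q lab j) :
    MG Q lab s * Real.exp (-(2 * δ * s ^ 2 * N)) ≤
      2 * (2 * δ * |s| * N + 1) * (w Q lab j * Real.exp (s * (N - 2 * j) / 2)) :=
  lower_rightFS hn hδ hδ1 hε hε1 hRE hs0 hsN hs hj hdec

end Pool.LH9
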