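import Pool.Agent.NL25.Real2
import Pool.Agent.GE63.Ent

set_option autoImplicit false

/-!
# LH9/RElin: the real estimate for heights at most `c N`
-/

namespace Pool.LH9

open Pool.HB45 Pool.HM63 Pool.PH43 Pool.SC25 Pool.NL25 Pool.SC45

theorem RE_lin (ε : ℝ) (hε : 0 < ε) (hε1 : ε ≤ 1) : ∃ s0 : ℝ, 0 < s0 ∧ ∃ c : ℝ, 0 < c ∧ ∃ N0 : ℕ, ∀ N ≥ N0, ∀ (h : ℕ)
    (Q : Rel (N + 1)) (κ lab : Fin (N + 1) → ℕ), 1 ≤ h → (h : ℝ) ≤ c * N → Lev h Q κ → Nat' Q lab →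
    Tr Q → RE Q lab ε s0 := by
  have hk : 0 < ε / 28 := by positivity
  obtain ⟨c, hc, s0, hs0, N0, hN0⟩ := real_estA ε (ε / 28) hε hk le_rfl
  refine ⟨s0, hs0, min c ((ε / 28) ^ 2), lt_min hc (by positivity), N0,
    fun N hN h Q κ lab hh hhc hκ hn hQ => ?_⟩
  have h1 : (h : ℝ) ≤ c * N :=
    hhc.trans (mul_le_mul_of_nonneg_right (min_le_left _ _) (Nat.cast_nonneg N))
  have h2 : (h : ℝ) ≤ (ε / 28) ^ 2 * N :=
    hhc.trans (mul_le_mul_of_nonneg_right (min_le_right _ _) (Nat.cast_nonneg N))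
  refine hN0 N hN h Q κ lab hh h1 hκ hn hQ fun s hs => ?_
  exact GE63.adj_mean hn (ε / 28) s hk (by linarith) ((GG_le hκ hn).trans h2) hs

end Pool.LH9
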