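import Pool.Agent.LH9.Defs
import Pool.Agent.SC25.Flip
import Pool.Agent.NL25.FlipR

set_option autoImplicit false

/-!
# LH9/StepL78: the sign of `w_(j+1) - w_j` from the class means
-/

namespace Pool.LH9

open Pool.HB45 Pool.HM63 Pool.PH43 Pool.SC25 Pool.NL25

theorem StepL78_pt (u v N b0 : ℕ) (hb0 : 1 ≤ b0) (hv : v ≤ N) (τ : ℝ) (hτ : 0 ≤ τ) (p : ℝ)
    (hp : 0 ≤ p) (hp' : (u : ℝ) - v ≤ 0 → p = 1 - ((u : ℝ) - v)) :
    1 + (if 1 + τ ≤ (u : ℝ) - v then τ / (N + 1) else 0) ≤ (u : ℝ) / (v + 1) +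
      ((if b0 ≤ u + v then 2 / (b0 : ℝ) * p else 0) + (if u + v < b0 then 1 else 0)) := by
  have hv1 : (0 : ℝ) < v + 1 := by positivity
  have hN1 : (v : ℝ) + 1 ≤ N + 1 := by
    have : (v : ℝ) ≤ N := by exact_mod_cast hv
    linarith
  have hb : (0 : ℝ) < b0 := by exact_mod_cast hb0
  have hnn1 : (0 : ℝ) ≤ (if b0 ≤ u + v then 2 / (b0 : ℝ) * p else 0) := by
    split_ifs <;> positivity
  have hnn2 : (0 : ℝ) ≤ (if u + v < b0 then (1 : ℝ) else 0) := by
    split_ifs <;> norm_num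
  have hun : (0 : ℝ) ≤ (u : ℝ) / (v + 1) := by positivity
  by_cases h1 : 1 + τ ≤ (u : ℝ) - v
  · rw [if_pos h1]
    have h2 : (u : ℝ) / (v + 1) = 1 + ((u : ℝ) - v - 1) / (v + 1) := by
      field_simp
      ring
    have h3 : τ / (N + 1) ≤ ((u : ℝ) - v - 1) / (v + 1) :=
      div_le_div₀ (by linarith) (by linarith) hv1 hN1
    linarith
  · rw [if_neg h1]
    rcases le_or_gt u v with h2 | h2
    · have h2' : (u : ℝ) - v ≤ 0 := by
        have : (u : ℝ) ≤ v := by exact_mod_cast h2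
        linarith
      by_cases h3 : u + v < b0
      · rw [if_pos h3] at hnn2 ⊢
        linarith
      · rw [if_neg h3, if_pos (not_lt.1 h3), hp' h2']
        have h4 : (u : ℝ) / (v + 1) = 1 - (1 - ((u : ℝ) - v)) / (v + 1) := by
          field_simp
          ring
        have h5 : (1 - ((u : ℝ) - v)) / (v + 1) ≤ 2 / b0 * (1 - ((u : ℝ) - v)) := by
          rw [div_le_iff₀ hv1]
          have h6 : (b0 : ℝ) ≤ 2 * (v + 1) := by
            have : b0 ≤ 2 * (v + 1) := by omega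
            exact_mod_cast this
          have h7 : 1 ≤ 2 / (b0 : ℝ) * (v + 1) := by
            rw [div_mul_eq_mul_div, le_div_iff₀ hb]
            linarith
          nlinarith
        linarith
    · have h3 : 1 ≤ (u : ℝ) / (v + 1) := by
        rw [le_div_iff₀ hv1]
        have h4 : ((v + 1 : ℕ) : ℝ) ≤ u := by exact_mod_cast h2
        push_cast at h4
        linarith
      linarith

open Classical in
theorem StepL78_abs {ι : Type} (S : Finset ι) (P : ι → Prop) (u v : ι → ℕ) (ps : ι → ℝ)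
    (N b0 : ℕ) (hb0 : 1 ≤ b0) (τ : ℝ) (hτ : 0 ≤ τ) (hv : ∀ g ∈ S, v g ≤ N)
    (hps : ∀ g ∈ S, 0 ≤ ps g)
    (hps' : ∀ g ∈ S, P g → (u g : ℝ) - v g ≤ 0 → ps g = 1 - ((u g : ℝ) - v g)) :
    ((S.filter P).card : ℝ) +
        τ / (N + 1) * ((S.filter fun g => P g ∧ 1 + τ ≤ (u g : ℝ) - v g).card : ℝ) ≤
      ∑ g ∈ S.filter P, (u g : ℝ) / (v g + 1) +
        (2 / (b0 : ℝ) * ∑ g ∈ S.filter (fun g => P g ∧ b0 ≤ u g + v g), ps g +
          ((S.filter fun g => u g + v g < b0).card : ℝ)) := by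
  have h1 : ((S.filter P).card : ℝ) +
      τ / (N + 1) * ((S.filter fun g => P g ∧ 1 + τ ≤ (u g : ℝ) - v g).card : ℝ) =
      ∑ g ∈ S.filter P, (1 + (if 1 + τ ≤ (u g : ℝ) - v g then τ / (N + 1) else 0)) := by
    rw [Finset.sum_add_distrib, ← Finset.filter_filter, ← Finset.sum_filter, Finset.sum_const,
      Finset.sum_const, nsmul_eq_mul, nsmul_eq_mul]
    ring
  have h2 : 2 / (b0 : ℝ) * ∑ g ∈ S.filter (fun g => P g ∧ b0 ≤ u g + v g), ps g =
      ∑ g ∈ S.filter P, (if b0 ≤ u g + v g then 2 / (b0 : ℝ) * ps g else 0) := by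
    rw [← Finset.filter_filter, ← Finset.sum_filter, Finset.mul_sum]
  have h3 : ∑ g ∈ S.filter P, (if u g + v g < b0 then (1 : ℝ) else 0) ≤
      ((S.filter fun g => u g + v g < b0).card : ℝ) := by
    rw [← Finset.sum_filter, Finset.sum_const, nsmul_eq_mul, mul_one]
    exact_mod_cast Finset.card_le_card
      (Finset.filter_subset_filter _ (Finset.filter_subset _ _))
  have h4 : ∑ g ∈ S.filter P, (1 + (if 1 + τ ≤ (u g : ℝ) - v g then τ / (N + 1) else 0)) ≤
      ∑ g ∈ S.filter P, ((u g : ℝ) / (v g + 1) +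
        ((if b0 ≤ u g + v g then 2 / (b0 : ℝ) * ps g else 0) +
          (if u g + v g < b0 then 1 else 0))) := by
    refine Finset.sum_le_sum fun g hg => ?_
    obtain ⟨hgS, hgP⟩ := Finset.mem_filter.1 hg
    exact StepL78_pt _ _ _ _ hb0 (hv g hgS) τ hτ _ (hps g hgS) (hps' g hgS hgP)
  rw [Finset.sum_add_distrib, Finset.sum_add_distrib, Finset.sum_add_distrib] at h4
  rw [h1, h2, Finset.sum_add_distrib]
  linarith

theorem StepL78_dec {ι : Type} (S : Finset ι) (P : ι → Prop) (u v : ι → ℕ) (ps : ι → ℝ)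
    (N b0 : ℕ) (hb0 : 1 ≤ b0) (τ : ℝ) (hτ : 0 ≤ τ) (hv : ∀ g ∈ S, v g ≤ N)
    (hps : ∀ g ∈ S, 0 ≤ ps g)
    (hps' : ∀ g ∈ S, P g → (u g : ℝ) - v g ≤ 0 → ps g = 1 - ((u g : ℝ) - v g))
    [DecidablePred P] [DecidablePred fun g => P g ∧ 1 + τ ≤ (u g : ℝ) - v g]
    [DecidablePred fun g => P g ∧ b0 ≤ u g + v g] [DecidablePred fun g => u g + v g < b0] :
    ((S.filter P).card : ℝ) +
        τ / (N + 1) * ((S.filter fun g => P g ∧ 1 + τ ≤ (u g : ℝ) - v g).card : ℝ) ≤
      ∑ g ∈ S.filter P, (u g : ℝ) / (v g + 1) +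
        (2 / (b0 : ℝ) * ∑ g ∈ S.filter (fun g => P g ∧ b0 ≤ u g + v g), ps g +
          ((S.filter fun g => u g + v g < b0).card : ℝ)) := by
  have h := StepL78_abs S P u v ps N b0 hb0 τ hτ hv hps hps'
  convert h

open Classical in
theorem step_lf78 {N : ℕ} {Q : Rel (N + 1)} {lab : Fin (N + 1) → ℕ} (hn : Nat' Q lab)
    {T : Finset (Fin N)} (hT : Sep T) (j b0 : ℕ) (hb0 : 1 ≤ b0) (τ : ℝ) (hτ : 0 ≤ τ)
    (h : 2 / (b0 : ℝ) * ∑ g ∈ (LE Q).filter (fun g => des lab g = j ∧ b0 ≤ bT Q lab T g),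
          ps1 ((N : ℤ) - 2 * j) (FT Q lab T g) +
        (((LE Q).filter fun g => bT Q lab T g < b0).card : ℝ) ≤
      τ / (N + 1) * (((LE Q).filter fun g => des lab g = j ∧
        (FT Q lab T g : ℝ) + 1 + τ ≤ (N : ℝ) - 2 * j).card : ℝ)) :
    w Q lab j ≤ w Q lab (j + 1) := by
  have h1 := flip_ineq hn hT j
  have h2 := StepL78_dec (LE Q) (fun g => des lab g = j) (fun g => (upT Q lab T g).card)
    (fun g => (dnT Q lab T g).card) (fun g => ps1 ((N : ℤ) - 2 * j) (FT Q lab T g)) N b0 hb0 τ hτ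
    (fun g _ => (Finset.card_le_univ _).trans (by rw [Fintype.card_fin]))
    (fun g _ => ps1_nonneg _ _) (by
      intro g _ hg hle
      have h3 : (upT Q lab T g).card ≤ (dnT Q lab T g).card := by
        have : ((upT Q lab T g).card : ℝ) ≤ (dnT Q lab T g).card := by linarith
        exact_mod_cast this
      unfold ps1
      rw [if_pos (by unfold FT; rw [hg]; omega)]
      unfold FT
      rw [hg]
      push_cast
      ring)
  have h3 : ((LE Q).filter fun g => des lab g = j ∧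
        (FT Q lab T g : ℝ) + 1 + τ ≤ (N : ℝ) - 2 * j) =
      ((LE Q).filter fun g => des lab g = j ∧ 1 + τ ≤ ((upT Q lab T g).card : ℝ) -
        (dnT Q lab T g).card) := by
    refine Finset.filter_congr fun g _ => ?_
    constructor
    · rintro ⟨hg, h4⟩
      refine ⟨hg, ?_⟩
      unfold FT at h4
      rw [hg] at h4
      push_cast at h4
      linarith
    · rintro ⟨hg, h4⟩
      refine ⟨hg, ?_⟩
      unfold FT
      rw [hg]
      push_cast
      linarith
  rw [h3] at h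
  have h5 : (w Q lab j : ℝ) = ((LE Q).filter fun g => des lab g = j).card := by
    unfold w
    congr!
  have h6 : (w Q lab j : ℝ) ≤ w Q lab (j + 1) := by
    rw [h5]
    unfold bT at h
    linarith
  exact_mod_cast h6

open Classical in
theorem step_lf_R78 {N : ℕ} {Q : Rel (N + 1)} {lab : Fin (N + 1) → ℕ} (hn : Nat' Q lab)
    {T : Finset (Fin N)} (hT : Sep T) (j b0 : ℕ) (hb0 : 1 ≤ b0) (τ : ℝ) (hτ : 0 ≤ τ)
    (h : 2 / (b0 : ℝ) * ∑ g ∈ (LE Q).filter (fun g => des lab g = j + 1 ∧ b0 ≤ bT Q lab T g),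
          ps2 ((N : ℤ) - 2 * (j + 1)) (FT Q lab T g) +
        (((LE Q).filter fun g => bT Q lab T g < b0).card : ℝ) ≤
      τ / (N + 1) * (((LE Q).filter fun g => des lab g = j + 1 ∧
        (N : ℝ) - 2 * (j + 1) + 1 + τ ≤ (FT Q lab T g : ℝ)).card : ℝ)) :
    w Q lab (j + 1) ≤ w Q lab j := by
  have h1 := flip_ineq_R (Q := Q) (lab := lab) hT j
  have h1' : Lj Q lab (j + 1) = (LE Q).filter (fun g => des lab g = j + 1) := by
    ext g
    simp [Lj]
  rw [h1'] at h1
  have h2 := StepL78_dec (LE Q) (fun g => des lab g = j + 1) (fun g => (dnT Q lab T g).card)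
    (fun g => (upT Q lab T g).card) (fun g => ps2 ((N : ℤ) - 2 * (j + 1)) (FT Q lab T g)) N b0
    hb0 τ hτ (fun g _ => (Finset.card_le_univ _).trans (by rw [Fintype.card_fin]))
    (fun g _ => ps2_nonneg _ _) (by
      intro g _ hg hle
      have h3 : (dnT Q lab T g).card ≤ (upT Q lab T g).card := by
        have : ((dnT Q lab T g).card : ℝ) ≤ (upT Q lab T g).card := by linarith
        exact_mod_cast this
      unfold ps2
      rw [if_pos (by unfold FT; rw [hg]; push_cast; omega)]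
      unfold FT
      rw [hg]
      push_cast
      ring)
  have h3 : ((LE Q).filter fun g => des lab g = j + 1 ∧
        (N : ℝ) - 2 * (j + 1) + 1 + τ ≤ (FT Q lab T g : ℝ)) =
      ((LE Q).filter fun g => des lab g = j + 1 ∧ 1 + τ ≤ ((dnT Q lab T g).card : ℝ) -
        (upT Q lab T g).card) := by
    refine Finset.filter_congr fun g _ => ?_
    constructor
    · rintro ⟨hg, h4⟩
      refine ⟨hg, ?_⟩
      unfold FT at h4
      rw [hg] at h4
      push_cast at h4
      linarith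
    · rintro ⟨hg, h4⟩
      refine ⟨hg, ?_⟩
      unfold FT
      rw [hg]
      push_cast
      linarith
  rw [h3] at h
  have h5 : (w Q lab (j + 1) : ℝ) = ((LE Q).filter fun g => des lab g = j + 1).card := by
    unfold w
    congr!
  have h7 : ((LE Q).filter fun g => bT Q lab T g < b0) =
      ((LE Q).filter fun g => (dnT Q lab T g).card + (upT Q lab T g).card < b0) := by
    refine Finset.filter_congr fun g _ => ?_
    unfold bT
    rw [add_comm]
  have h8 : ((LE Q).filter fun g => des lab g = j + 1 ∧ b0 ≤ bT Q lab T g) =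
      ((LE Q).filter fun g => des lab g = j + 1 ∧
        b0 ≤ (dnT Q lab T g).card + (upT Q lab T g).card) := by
    refine Finset.filter_congr fun g _ => ?_
    unfold bT
    rw [add_comm (upT Q lab T g).card]
  rw [h7, h8] at h
  have h6 : (w Q lab (j + 1) : ℝ) ≤ w Q lab j := by
    rw [h5]
    linarith
  exact_mod_cast h6

end Pool.LH9
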