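import Pool.Agent.LH9.Defs
import Pool.Agent.SC25.Flip
import Pool.Agent.NL25.FlipR
import Pool.Agent.LH9.StepL78

set_option autoImplicit false

/-!
# LH9/StepF: the sign of `w_(j+1) - w_j` from the class means (STUB)
-/

namespace Pool.LH9

open Pool.HB45 Pool.HM63 Pool.PH43 Pool.SC25 Pool.NL25

open Classical in
/-- PROOF. `flip_ineq`: `w_(j+1) ≥ ∑_(des = j) up/(dn+1) = w_j + ∑_(des = j) (up - dn - 1)/(dn + 1)`, and on `des = j`: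
`up - dn = N - 2j - FT`. Words with `FT + 1 + τ ≤ N - 2j`: term `≥ τ/(N+1)` (`dn + 1 ≤ N + 1`); words with `FT < N - 2j`:
term `≥ 0`; words with `FT ≥ N - 2j` (`up ≤ dn`): `bT < b0`: term `≥ -1`; `bT ≥ b0`: `dn + 1 ≥ b0/2`, term
`≥ -(2/b0) ps1 (N - 2j) FT`. -/
theorem step_lf {N : ℕ} {Q : Rel (N + 1)} {lab : Fin (N + 1) → ℕ} (hn : Nat' Q lab)
    {T : Finset (Fin N)} (hT : Sep T) (j b0 : ℕ) (hb0 : 1 ≤ b0) (τ : ℝ) (hτ : 0 ≤ τ)
    (h : 2 / (b0 : ℝ) * ∑ g ∈ (LE Q).filter (fun g => des lab g = j ∧ b0 ≤ bT Q lab T g),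
          ps1 ((N : ℤ) - 2 * j) (FT Q lab T g) +
        (((LE Q).filter fun g => bT Q lab T g < b0).card : ℝ) ≤
      τ / (N + 1) * (((LE Q).filter fun g => des lab g = j ∧
        (FT Q lab T g : ℝ) + 1 + τ ≤ (N : ℝ) - 2 * j).card : ℝ)) :
    w Q lab j ≤ w Q lab (j + 1) := by
  exact step_lf78 hn hT j b0 hb0 τ hτ h

open Classical in
/-- PROOF. The mirror image with `NL25.flip_ineq_R`: `w_j ≥ ∑_(des = j + 1) dn/(up + 1)`. -/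
theorem step_lf_R {N : ℕ} {Q : Rel (N + 1)} {lab : Fin (N + 1) → ℕ} (hn : Nat' Q lab)
    {T : Finset (Fin N)} (hT : Sep T) (j b0 : ℕ) (hb0 : 1 ≤ b0) (τ : ℝ) (hτ : 0 ≤ τ)
    (h : 2 / (b0 : ℝ) * ∑ g ∈ (LE Q).filter (fun g => des lab g = j + 1 ∧ b0 ≤ bT Q lab T g),
          ps2 ((N : ℤ) - 2 * (j + 1)) (FT Q lab T g) +
        (((LE Q).filter fun g => bT Q lab T g < b0).card : ℝ) ≤
      τ / (N + 1) * (((LE Q).filter fun g => des lab g = j + 1 ∧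
        (N : ℝ) - 2 * (j + 1) + 1 + τ ≤ (FT Q lab T g : ℝ)).card : ℝ)) :
    w Q lab (j + 1) ≤ w Q lab j := by
  exact step_lf_R78 hn hT j b0 hb0 τ hτ h

end Pool.LH9
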