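import Pool.Agent.LH9.Core
import Pool.Agent.LH9.RElin
import Pool.Agent.LH9.Few
import Pool.Agent.LH9.StepF
import Pool.Agent.LH9.LowF
import Pool.Agent.SC25.FlipE2

set_option autoImplicit false

/-!
# LH9/Left: left and right of the mean, without the logarithm
-/

namespace Pool.LH9

open Pool.HB45 Pool.HM63 Pool.PH43 Pool.SC25 Pool.NL25 Pool.SC45

theorem lin_exp (t x : ℝ) (ht : 0 < t) : x ≤ 2 / t * Real.exp (t * x / 2) := by
  have h1 := Real.add_one_le_exp (t * x / 2)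
  have h2 : x = 2 / t * (t * x / 2) := by field_simp
  calc x = 2 / t * (t * x / 2) := h2
    _ ≤ 2 / t * Real.exp (t * x / 2) := mul_le_mul_of_nonneg_left (by linarith) (by positivity)

theorem b0_facts (N : ℕ) : (N : ℝ) / 30000 ≤ ((N / 30000 + 1 : ℕ) : ℝ) ∧
    ((N / 30000 + 1 : ℕ) : ℝ) ≤ N / 30000 + 1 := by
  constructor
  · have h1 : N ≤ (N / 30000 + 1) * 30000 := by omega
    have h2 : (N : ℝ) ≤ ((N / 30000 + 1 : ℕ) : ℝ) * 30000 := by exact_mod_cast h1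
    linarith
  · push_cast
    have := @Nat.cast_div_le ℝ _ _ _ N 30000
    push_cast at this
    linarith

theorem left_lf : ∃ K : ℝ, 0 < K ∧ ∃ c5 : ℝ, 0 < c5 ∧ ∃ c : ℝ, 0 < c ∧ ∃ N0 : ℕ, ∀ N ≥ N0,
    ∀ (h : ℕ) (Q : Rel (N + 1)) (κ lab : Fin (N + 1) → ℕ), 1 ≤ h → (h : ℝ) ≤ c * N → Lev h Q κ →
    Nat' Q lab → Tr Q → ∀ j : ℕ, K * Real.sqrt N ≤ (N - NL25.GG Q) / 2 - j →
    (N - NL25.GG Q) / 2 - j ≤ c5 * N →
    (∀ i ≤ j, w Q lab i ≤ w Q lab j) → w Q lab j ≤ w Q lab (j + 1) := by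
  obtain ⟨s0, hs0, c1, hc1, N1, hN1⟩ := RE_lin (1 / 10 ^ 14) (by norm_num) (by norm_num)
  obtain ⟨c2, hc2, N2, hN2⟩ := few
  obtain ⟨N3, hN3⟩ := num_f1
  obtain ⟨N4, hN4⟩ := num_f2
  refine ⟨10 ^ 6, by norm_num, min (1 / 3000) (s0 / 14), by positivity, min c1 c2, lt_min hc1 hc2,
    max (max N1 N2) (max (max N3 N4) 1), fun N hN h Q κ lab hh hhc hκ hn hQ j hy1 hy2 hinc => ?_⟩
  have g1 : N1 ≤ N := ((le_max_left _ _).trans (le_max_left _ _)).trans hN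
  have g2 : N2 ≤ N := ((le_max_right _ _).trans (le_max_left _ _)).trans hN
  have g3 : N3 ≤ N := (((le_max_left _ _).trans (le_max_left _ _)).trans (le_max_right _ _)).trans hN
  have g4 : N4 ≤ N := (((le_max_right _ _).trans (le_max_left _ _)).trans (le_max_right _ _)).trans hN
  have g5 : 1 ≤ N := ((le_max_right _ _).trans (le_max_right _ _)).trans hN
  have hNp : (0 : ℝ) < N := by exact_mod_cast g5
  have hh1 : (h : ℝ) ≤ c1 * N :=
    hhc.trans (mul_le_mul_of_nonneg_right (min_le_left _ _) hNp.le)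
  have hh2 : (h : ℝ) ≤ c2 * N :=
    hhc.trans (mul_le_mul_of_nonneg_right (min_le_right _ _) hNp.le)
  have hRE := hN1 N g1 h Q κ lab hh hh1 hκ hn hQ
  obtain ⟨y, hy⟩ : ∃ y, y = (N - NL25.GG Q) / 2 - j := ⟨_, rfl⟩
  rw [← hy] at hy1 hy2
  have hsqN : 0 < Real.sqrt N := Real.sqrt_pos.2 hNp
  have hy0 : 0 < y := lt_of_lt_of_le (by positivity) hy1
  obtain ⟨s, hs⟩ : ∃ s, s = y / ((1 / 12 - 1 / 10 ^ 7) * N) := ⟨_, rfl⟩
  have hys : y = (1 / 12 - 1 / 10 ^ 7) * (s * N) := by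
    rw [hs]
    field_simp
  have hsN0 : 0 < s * N := by
    by_contra hcon
    push Not at hcon
    nlinarith
  have hspos : 0 < s := (pos_iff_pos_of_mul_pos hsN0).2 hNp
  have hs13 : s ≤ 13 * min (1 / 3000) (s0 / 14) := by
    have h1 : s * N ≤ (13 * min (1 / 3000) (s0 / 14)) * N := by nlinarith
    exact le_of_mul_le_mul_right h1 hNp
  have hs200 : s ≤ 1 / 200 := by
    have := min_le_left (1 / 3000 : ℝ) (s0 / 14)
    linarith
  have hss0 : |s| * (1 + 12 * (1 / 10 ^ 7)) ≤ s0 := by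
    rw [abs_of_pos hspos]
    have := min_le_right (1 / 3000 : ℝ) (s0 / 14)
    nlinarith
  have hz : (10 : ℝ) ^ 14 ≤ s ^ 2 * N := by
    have h1 : (10 ^ 6 * Real.sqrt N) * (10 ^ 6 * Real.sqrt N) ≤ y * y :=
      mul_le_mul hy1 hy1 (by positivity) hy0.le
    have h2 : Real.sqrt N * Real.sqrt N = N := Real.mul_self_sqrt hNp.le
    have h3 : (10 : ℝ) ^ 12 * N ≤ y * y := by
      have e : (10 ^ 6 * Real.sqrt N) * (10 ^ 6 * Real.sqrt N) =
          10 ^ 12 * (Real.sqrt N * Real.sqrt N) := by ring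
      rw [h2] at e
      linarith
    have h4 : y * y ≤ 1 / 144 * ((s * N) * (s * N)) := by
      rw [hys]
      have : 0 ≤ (s * N) * (s * N) := by positivity
      nlinarith
    have h5 : (10 : ℝ) ^ 14 * N ≤ s ^ 2 * N * N := by nlinarith
    exact le_of_mul_le_mul_right h5 hNp
  obtain ⟨m, hm'⟩ : ∃ m, m = (N + 1) / 5 := ⟨_, rfl⟩
  have hm : m * (3 + 2) ≤ N + 1 := by omega
  obtain ⟨b0, hb0⟩ : ∃ b0, b0 = N / 30000 + 1 := ⟨_, rfl⟩
  have hb01 : 1 ≤ b0 := by omega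
  obtain ⟨hb1, hb2⟩ := b0_facts N
  rw [← hb0] at hb1 hb2
  have hj : (j : ℝ) = (N - (GG Q + s * N / 6)) / 2 + 1 / 10 ^ 7 * s * N := by
    have h1 : (N - NL25.GG Q) / 2 - (j : ℝ) = (1 / 12 - 1 / 10 ^ 7) * (s * N) := by rw [← hy, hys]
    linarith
  have H1 := lower_leftF hn (δ := 1 / 10 ^ 7) (ε := 1 / 10 ^ 14) (s0 := s0) (s := s) (by norm_num)
    (by norm_num) (by norm_num) (by norm_num) hRE hss0 (by
      norm_num
      norm_num at hz
      exact hz) hspos hj hinc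
  have H2 := hN2 N g2 h m hm Q κ lab hh hh2 hκ hn hm' b0 hb2
  have H4 : s * (((N : ℝ) - 2 * j) - GG Q) / 2 ≤ s ^ 2 * N / 12 := by
    have h1 : ((N : ℝ) - 2 * j) - GG Q = 2 * y := by rw [hy]; ring
    rw [h1, hys]
    have : 0 ≤ s * (s * N) := by positivity
    nlinarith
  have habs : |s| = s := abs_of_pos hspos
  have hcore := core hn (sep_Tw hm) j b0 hb01 hb1 s s habs.symm hspos hs200 H1 H2 H4
    (hN3 N g3 b0 s hb1 hspos hs200 hz) (hN4 N g4 b0 s hb1 hspos hs200 hz)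
    (ps1 ((N : ℤ) - 2 * j)) (ps1_nonneg _) ?_
    (fun f => (f : ℝ) + 1 + 1 / 10 ^ 6 * s * N ≤ (N : ℝ) - 2 * j) ?_
  · exact step_lf hn (sep_Tw hm) j b0 hb01 (1 / 10 ^ 6 * s * N) (by positivity) hcore
  · intro f
    unfold ps1
    split_ifs with hf
    · have h1 := lin_exp s ((f : ℝ) - (((N : ℤ) - 2 * j : ℤ) : ℝ) + 1) hspos
      refine h1.trans (le_of_eq ?_)
      rw [mul_assoc, ← Real.exp_add]
      congr 2
      push_cast
      ring
    · positivity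
  · intro f hf
    rw [← Real.exp_add]
    rw [Real.one_le_exp_iff]
    simp only [not_le] at hf
    have h1 : 0 ≤ s * (1 + 1 / 10 ^ 6 * s * N + ((f : ℝ) - ((N : ℝ) - 2 * j))) := by
      apply mul_nonneg hspos.le
      linarith
    linarith

theorem right_lf : ∃ K : ℝ, 0 < K ∧ ∃ c5 : ℝ, 0 < c5 ∧ ∃ c : ℝ, 0 < c ∧ ∃ N0 : ℕ, ∀ N ≥ N0,
    ∀ (h : ℕ) (Q : Rel (N + 1)) (κ lab : Fin (N + 1) → ℕ), 1 ≤ h → (h : ℝ) ≤ c * N → Lev h Q κ →
    Nat' Q lab → Tr Q → ∀ j : ℕ, K * Real.sqrt N ≤ (j : ℝ) + 1 - (N - NL25.GG Q) / 2 →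
    (j : ℝ) + 1 - (N - NL25.GG Q) / 2 ≤ c5 * N →
    (∀ i, j + 1 ≤ i → w Q lab i ≤ w Q lab (j + 1)) → w Q lab (j + 1) ≤ w Q lab j := by
  obtain ⟨s0, hs0, c1, hc1, N1, hN1⟩ := RE_lin (1 / 10 ^ 14) (by norm_num) (by norm_num)
  obtain ⟨c2, hc2, N2, hN2⟩ := few
  obtain ⟨N3, hN3⟩ := num_f1
  obtain ⟨N4, hN4⟩ := num_f2
  refine ⟨10 ^ 6, by norm_num, min (1 / 3000) (s0 / 14), by positivity, min c1 c2, lt_min hc1 hc2,
    max (max N1 N2) (max (max N3 N4) 1), fun N hN h Q κ lab hh hhc hκ hn hQ j hy1 hy2 hdec => ?_⟩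
  have g1 : N1 ≤ N := ((le_max_left _ _).trans (le_max_left _ _)).trans hN
  have g2 : N2 ≤ N := ((le_max_right _ _).trans (le_max_left _ _)).trans hN
  have g3 : N3 ≤ N := (((le_max_left _ _).trans (le_max_left _ _)).trans (le_max_right _ _)).trans hN
  have g4 : N4 ≤ N := (((le_max_right _ _).trans (le_max_left _ _)).trans (le_max_right _ _)).trans hN
  have g5 : 1 ≤ N := ((le_max_right _ _).trans (le_max_right _ _)).trans hN
  have hNp : (0 : ℝ) < N := by exact_mod_cast g5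
  have hh1 : (h : ℝ) ≤ c1 * N :=
    hhc.trans (mul_le_mul_of_nonneg_right (min_le_left _ _) hNp.le)
  have hh2 : (h : ℝ) ≤ c2 * N :=
    hhc.trans (mul_le_mul_of_nonneg_right (min_le_right _ _) hNp.le)
  have hRE := hN1 N g1 h Q κ lab hh hh1 hκ hn hQ
  obtain ⟨y, hy⟩ : ∃ y, y = (j : ℝ) + 1 - (N - NL25.GG Q) / 2 := ⟨_, rfl⟩
  rw [← hy] at hy1 hy2
  have hsqN : 0 < Real.sqrt N := Real.sqrt_pos.2 hNp
  have hy0 : 0 < y := lt_of_lt_of_le (by positivity) hy1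
  obtain ⟨t, ht⟩ : ∃ t, t = y / ((1 / 12 - 1 / 10 ^ 7) * N) := ⟨_, rfl⟩
  have hys : y = (1 / 12 - 1 / 10 ^ 7) * (t * N) := by
    rw [ht]
    field_simp
  have htN0 : 0 < t * N := by
    by_contra hcon
    push Not at hcon
    nlinarith
  have htpos : 0 < t := (pos_iff_pos_of_mul_pos htN0).2 hNp
  have ht13 : t ≤ 13 * min (1 / 3000) (s0 / 14) := by
    have h1 : t * N ≤ (13 * min (1 / 3000) (s0 / 14)) * N := by nlinarith
    exact le_of_mul_le_mul_right h1 hNp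
  have ht200 : t ≤ 1 / 200 := by
    have := min_le_left (1 / 3000 : ℝ) (s0 / 14)
    linarith
  obtain ⟨s, hs⟩ : ∃ s, s = -t := ⟨_, rfl⟩
  have hsneg : s < 0 := by rw [hs]; linarith
  have habs : |s| = t := by rw [hs, abs_neg, abs_of_pos htpos]
  have hss0 : |s| * (1 + 12 * (1 / 10 ^ 7)) ≤ s0 := by
    rw [habs]
    have := min_le_right (1 / 3000 : ℝ) (s0 / 14)
    nlinarith
  have hz : (10 : ℝ) ^ 14 ≤ t ^ 2 * N := by
    have h1 : (10 ^ 6 * Real.sqrt N) * (10 ^ 6 * Real.sqrt N) ≤ y * y :=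
      mul_le_mul hy1 hy1 (by positivity) hy0.le
    have h2 : Real.sqrt N * Real.sqrt N = N := Real.mul_self_sqrt hNp.le
    have h3 : (10 : ℝ) ^ 12 * N ≤ y * y := by
      have e : (10 ^ 6 * Real.sqrt N) * (10 ^ 6 * Real.sqrt N) =
          10 ^ 12 * (Real.sqrt N * Real.sqrt N) := by ring
      rw [h2] at e
      linarith
    have h4 : y * y ≤ 1 / 144 * ((t * N) * (t * N)) := by
      rw [hys]
      have : 0 ≤ (t * N) * (t * N) := by positivity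
      nlinarith
    have h5 : (10 : ℝ) ^ 14 * N ≤ t ^ 2 * N * N := by nlinarith
    exact le_of_mul_le_mul_right h5 hNp
  have hs2 : s ^ 2 = t ^ 2 := by rw [hs]; ring
  obtain ⟨m, hm'⟩ : ∃ m, m = (N + 1) / 5 := ⟨_, rfl⟩
  have hm : m * (3 + 2) ≤ N + 1 := by omega
  obtain ⟨b0, hb0⟩ : ∃ b0, b0 = N / 30000 + 1 := ⟨_, rfl⟩
  have hb01 : 1 ≤ b0 := by omega
  obtain ⟨hb1, hb2⟩ := b0_facts N
  rw [← hb0] at hb1 hb2
  have hj : ((j + 1 : ℕ) : ℝ) = (N - (GG Q + s * N / 6)) / 2 + 1 / 10 ^ 7 * s * N := by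
    have h1 : (j : ℝ) + 1 - (N - NL25.GG Q) / 2 = (1 / 12 - 1 / 10 ^ 7) * (t * N) := by rw [← hy, hys]
    rw [hs]
    push_cast
    linarith
  have H1 := lower_rightF hn (δ := 1 / 10 ^ 7) (ε := 1 / 10 ^ 14) (s0 := s0) (s := s) (by norm_num)
    (by norm_num) (by norm_num) (by norm_num) hRE hss0 (by
      rw [hs2]
      norm_num
      norm_num at hz
      exact hz) hsneg hj hdec
  have H2 := hN2 N g2 h m hm Q κ lab hh hh2 hκ hn hm' b0 hb2
  have H4 : s * (((N : ℝ) - 2 * ((j + 1 : ℕ) : ℝ)) - GG Q) / 2 ≤ s ^ 2 * N / 12 := by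
    have h1 : ((N : ℝ) - 2 * ((j + 1 : ℕ) : ℝ)) - GG Q = -(2 * y) := by
      rw [hy]
      push_cast
      ring
    rw [h1, hys, hs]
    have : 0 ≤ t * (t * N) := by positivity
    nlinarith
  have hcore := core hn (sep_Tw hm) (j + 1) b0 hb01 hb1 s t habs.symm htpos ht200 H1 H2 H4
    (hN3 N g3 b0 t hb1 htpos ht200 hz) (hN4 N g4 b0 t hb1 htpos ht200 hz)
    (ps2 ((N : ℤ) - 2 * (j + 1))) (ps2_nonneg _) ?_
    (fun f => (N : ℝ) - 2 * (j + 1) + 1 + 1 / 10 ^ 6 * t * N ≤ (f : ℝ)) ?_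
  · exact step_lf_R hn (sep_Tw hm) j b0 hb01 (1 / 10 ^ 6 * t * N) (by positivity) hcore
  · intro f
    unfold ps2
    split_ifs with hf
    · have h1 := lin_exp t ((((N : ℤ) - 2 * (j + 1) : ℤ) : ℝ) - (f : ℝ) + 1) htpos
      refine h1.trans (le_of_eq ?_)
      rw [mul_assoc, ← Real.exp_add, hs]
      congr 2
      push_cast
      ring
    · positivity
  · intro f hf
    rw [← Real.exp_add]
    rw [Real.one_le_exp_iff]
    simp only [not_le] at hf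
    have h1 : 0 ≤ t * (1 + 1 / 10 ^ 6 * t * N + ((N : ℝ) - 2 * (j + 1) - (f : ℝ))) := by
      apply mul_nonneg htpos.le
      linarith
    rw [hs]
    push_cast
    linarith

end Pool.LH9
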