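import Pool.Agent.C78.Binom

set_option autoImplicit false

/-!
# LH9/Cho: binomial coefficients are at most `2 * 2^k / √k`
-/

namespace Pool.LH9

theorem choose_mul_sqrt (k i : ℕ) : (k.choose i : ℝ) * Real.sqrt k ≤ 2 * 2 ^ k := by
  have h1 := C78.choose_mid k i
  have h2 : ((k.choose i : ℝ)) ^ 2 * (k + 1) ≤ 4 * 4 ^ k := by exact_mod_cast h1
  have h3 : ((k.choose i : ℝ) * Real.sqrt k) ^ 2 ≤ (2 * 2 ^ k) ^ 2 := by
    rw [mul_pow, Real.sq_sqrt (Nat.cast_nonneg k), mul_pow, ← pow_mul, mul_comm k 2, pow_mul]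
    norm_num
    have h4 : (0 : ℝ) ≤ (k.choose i : ℝ) ^ 2 := sq_nonneg _
    nlinarith
  exact le_of_sq_le_sq h3 (by positivity)

end Pool.LH9
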