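import Pool.Agent.LH9.Defs
import Pool.Agent.SC25.Flip

set_option autoImplicit false

namespace Pool.LH9

open Pool.HB45 Pool.HM63 Pool.PH43 Pool.SC25 Pool.NL25

theorem c48_dn {N : ℕ} {Q : Rel (N + 1)} {lab : Fin (N + 1) → ℕ} {T : Finset (Fin N)} (hT : Sep T)
    {g : Equiv.Perm (Fin (N + 1))} (hg : g ∈ LE Q) {p : Fin N} (hp : p ∈ dnT Q lab T g) :
    sw g p ∈ LE Q ∧ p ∈ upT Q lab T (sw g p) ∧
      (dnT Q lab T (sw g p)).card + 1 = (dnT Q lab T g).card ∧
      (upT Q lab T (sw g p)).card = (upT Q lab T g).card + 1 ∧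
      des lab (sw g p) + 1 = des lab g := by
  classical
  have hp0 := hp
  rw [mem_dnT] at hp0
  obtain ⟨hpT, hq, hdes⟩ := hp0
  have h1 := (dnT_sw_self (lab := lab) (T := T) hg p hq).2 hp
  have h2 : p ∉ upT Q lab T g := by
    intro h
    rw [mem_upT] at h
    omega
  have h3 : p ∉ dnT Q lab T (sw g p) := fun h => h2 ((upT_sw_self (lab := lab) hg p hq).1 h)
  have e1 : dnT Q lab T (sw g p) = (dnT Q lab T g).erase p := by
    ext p'
    rw [Finset.mem_erase]
    by_cases hne : p' = p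
    · subst hne
      simp [h3]
    · constructor
      · intro h
        exact ⟨hne, ((upT_sw hT g p hpT p' (mem_dnT.1 h).1 hne).2).1 h⟩
      · rintro ⟨_, h⟩
        exact ((upT_sw hT g p hpT p' (mem_dnT.1 h).1 hne).2).2 h
  have e2 : upT Q lab T (sw g p) = insert p (upT Q lab T g) := by
    ext p'
    rw [Finset.mem_insert]
    by_cases hne : p' = p
    · subst hne
      simp [h1]
    · constructor
      · intro h
        exact Or.inr (((upT_sw hT g p hpT p' (mem_upT.1 h).1 hne).1).1 h)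
      · rintro (h | h)
        · exact absurd h hne
        · exact ((upT_sw hT g p hpT p' (mem_upT.1 h).1 hne).1).2 h
  refine ⟨sw_mem hg hq, h1, ?_, ?_, hdes⟩
  · rw [e1, Finset.card_erase_of_mem hp]
    have := Finset.card_pos.2 ⟨p, hp⟩
    omega
  · rw [e2, Finset.card_insert_of_notMem h2]

theorem c48_up {N : ℕ} {Q : Rel (N + 1)} {lab : Fin (N + 1) → ℕ} {T : Finset (Fin N)}
    {g : Equiv.Perm (Fin (N + 1))} (hg : g ∈ LE Q) {p : Fin N} (hp : p ∈ upT Q lab T g) :
    sw g p ∈ LE Q ∧ p ∈ dnT Q lab T (sw g p) := by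
  classical
  have hp0 := hp
  rw [mem_upT] at hp0
  obtain ⟨hpT, hq, hdes⟩ := hp0
  exact ⟨sw_mem hg hq, (upT_sw_self (lab := lab) hg p hq).2 hp⟩

open Classical in
theorem cls_step48 {N : ℕ} {Q : Rel (N + 1)} {lab : Fin (N + 1) → ℕ} {T : Finset (Fin N)}
    (hT : Sep T) (f : ℤ) (k i : ℕ) (hi : i + 1 ≤ k) :
    (i + 1) * ((LE Q).filter fun g => FT Q lab T g = f ∧ bT Q lab T g = k ∧
        (dnT Q lab T g).card = i + 1).card =
      (k - i) * ((LE Q).filter fun g => FT Q lab T g = f ∧ bT Q lab T g = k ∧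
        (dnT Q lab T g).card = i).card := by
  set A := (LE Q).filter fun g => FT Q lab T g = f ∧ bT Q lab T g = k ∧
        (dnT Q lab T g).card = i + 1 with hA
  set B := (LE Q).filter fun g => FT Q lab T g = f ∧ bT Q lab T g = k ∧
        (dnT Q lab T g).card = i with hB
  have h1 : (A.sigma fun g => dnT Q lab T g).card = (i + 1) * A.card := by
    rw [Finset.card_sigma, Finset.sum_congr rfl (g := fun _ => i + 1), Finset.sum_const,
      smul_eq_mul, mul_comm]
    intro g hg
    rw [hA, Finset.mem_filter] at hg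
    exact hg.2.2.2
  have h2 : (B.sigma fun g => upT Q lab T g).card = (k - i) * B.card := by
    rw [Finset.card_sigma, Finset.sum_congr rfl (g := fun _ => k - i), Finset.sum_const,
      smul_eq_mul, mul_comm]
    intro g hg
    rw [hB, Finset.mem_filter] at hg
    obtain ⟨_, _, h3, h4⟩ := hg
    unfold bT at h3
    omega
  rw [← h1, ← h2]
  refine Finset.card_nbij' (fun x => ⟨sw x.1 x.2, x.2⟩) (fun x => ⟨sw x.1 x.2, x.2⟩) ?_ ?_ ?_ ?_
  · rintro ⟨g, p⟩ hx
    rw [Finset.mem_coe, Finset.mem_sigma] at hx ⊢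
    obtain ⟨hgA, hp⟩ := hx
    rw [hA, Finset.mem_filter] at hgA
    obtain ⟨hg, hf, hk, hd⟩ := hgA
    obtain ⟨a1, a2, a3, a4, a5⟩ := c48_dn hT hg hp
    refine ⟨?_, a2⟩
    rw [hB, Finset.mem_filter]
    unfold FT at hf ⊢
    unfold bT at hk ⊢
    refine ⟨a1, ?_, ?_, ?_⟩ <;> dsimp only at * <;> omega
  · rintro ⟨g, p⟩ hx
    rw [Finset.mem_coe, Finset.mem_sigma] at hx ⊢
    obtain ⟨hgB, hp⟩ := hx
    rw [hB, Finset.mem_filter] at hgB
    obtain ⟨hg, hf, hk, hd⟩ := hgB
    obtain ⟨b1, b2⟩ := c48_up hg hp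
    obtain ⟨a1, a2, a3, a4, a5⟩ := c48_dn hT b1 b2
    rw [sw_sw] at a1 a2 a3 a4 a5
    refine ⟨?_, b2⟩
    rw [hA, Finset.mem_filter]
    unfold FT at hf ⊢
    unfold bT at hk ⊢
    refine ⟨b1, ?_, ?_, ?_⟩ <;> dsimp only at * <;> omega
  · rintro ⟨g, p⟩ _
    simp only [sw_sw]
  · rintro ⟨g, p⟩ _
    simp only [sw_sw]

open Classical in
theorem cls_count48 {N : ℕ} {Q : Rel (N + 1)} {lab : Fin (N + 1) → ℕ} {T : Finset (Fin N)}
    (hT : Sep T) (f : ℤ) (k i : ℕ) :
    (((LE Q).filter fun g => FT Q lab T g = f ∧ bT Q lab T g = k ∧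
        (dnT Q lab T g).card = i).card : ℝ) * 2 ^ k =
      (((LE Q).filter fun g => FT Q lab T g = f ∧ bT Q lab T g = k).card : ℝ) * (k.choose i : ℝ) := by
  set c : ℕ → ℕ := fun i => ((LE Q).filter fun g => FT Q lab T g = f ∧ bT Q lab T g = k ∧
        (dnT Q lab T g).card = i).card with hc
  have h1 : ∀ i, c i = c 0 * k.choose i := by
    intro i
    induction i with
    | zero => simp
    | succ i ih =>
      rcases Nat.lt_or_ge i k with hik | hik
      · have h2 := cls_step48 (Q := Q) (lab := lab) hT f k i hik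
        have h3 : (i + 1) * c (i + 1) = (k - i) * c i := h2
        have h4 : k.choose (i + 1) * (i + 1) = k.choose i * (k - i) := Nat.choose_succ_right_eq k i
        have h5 : (i + 1) * c (i + 1) = (i + 1) * (c 0 * k.choose (i + 1)) := by
          rw [h3, ih]
          calc (k - i) * (c 0 * k.choose i) = c 0 * (k.choose i * (k - i)) := by ring
            _ = c 0 * (k.choose (i + 1) * (i + 1)) := by rw [h4]
            _ = _ := by ring
        exact Nat.eq_of_mul_eq_mul_left (by omega) h5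
      · rw [Nat.choose_eq_zero_of_lt (by omega), mul_zero, hc]
        rw [Finset.card_eq_zero, Finset.filter_eq_empty_iff]
        rintro g _ ⟨_, h3, h4⟩
        unfold bT at h3
        omega
  have h2 : ((LE Q).filter fun g => FT Q lab T g = f ∧ bT Q lab T g = k).card =
      ∑ i ∈ Finset.range (k + 1), c i := by
    rw [Finset.card_eq_sum_card_fiberwise (f := fun g => (dnT Q lab T g).card)
      (t := Finset.range (k + 1))]
    · refine Finset.sum_congr rfl fun i _ => ?_
      rw [Finset.filter_filter]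
      rw [hc]
      congr 1
      ext g
      simp only [Finset.mem_filter]
      tauto
    · intro g hg
      rw [Finset.mem_coe, Finset.mem_filter] at hg
      rw [Finset.mem_coe, Finset.mem_range]
      have h3 := hg.2.2
      unfold bT at h3
      dsimp only
      omega
  have h3 : ((LE Q).filter fun g => FT Q lab T g = f ∧ bT Q lab T g = k).card = c 0 * 2 ^ k := by
    rw [h2, Finset.sum_congr rfl fun i _ => h1 i, ← Finset.mul_sum, Nat.sum_range_choose]
  have h4 : c i * 2 ^ k = c 0 * 2 ^ k * k.choose i := by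
    rw [h1 i]
    ring
  rw [h3]
  exact_mod_cast h4

end Pool.LH9
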