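import Pool.Agent.LH9.Defs
import Pool.Agent.SC25.Flip
import Pool.Agent.LH9.ClsS48

set_option autoImplicit false

/-!
# LH9/Cls: the flip classes are binomial (STUB)
-/

namespace Pool.LH9

open Pool.HB45 Pool.HM63 Pool.PH43 Pool.SC25 Pool.NL25

open Classical in
/-- DOUBLE COUNTING (as `PH43.flip`). Pairs `(g, p)`, `g` with `dn = i + 1`, `p ∈ dnT g`, against pairs `(g', p)`, `g'` with
`dn = i`, `p ∈ upT g'` (there are `k - i` such `p`), by `g' = sw g p`: `des` drops by one, `dnT` loses exactly `p`, `upT` gains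
exactly `p` (`SC25.upT_sw`, `dnT_sw`, `upT_sw_self`, …), so `FT` and `bT` do not change. -/
theorem cls_step {N : ℕ} {Q : Rel (N + 1)} {lab : Fin (N + 1) → ℕ} {T : Finset (Fin N)} (hT : Sep T)
    (f : ℤ) (k i : ℕ) (hi : i + 1 ≤ k) :
    (i + 1) * ((LE Q).filter fun g => FT Q lab T g = f ∧ bT Q lab T g = k ∧
        (dnT Q lab T g).card = i + 1).card =
      (k - i) * ((LE Q).filter fun g => FT Q lab T g = f ∧ bT Q lab T g = k ∧
        (dnT Q lab T g).card = i).card :=
  cls_step48 hT f k i hi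

open Classical in
/-- PROOF. `cls_step`: `c_(i+1) (i+1) = (k - i) c_i`, so `c_i = c_0 C(k,i)`; the sum over `i ≤ k` (`dn ≤ bT = k`) is
`c_0 2^k`. For `i > k` both sides are 0. -/
theorem cls_count {N : ℕ} {Q : Rel (N + 1)} {lab : Fin (N + 1) → ℕ} {T : Finset (Fin N)} (hT : Sep T)
    (f : ℤ) (k i : ℕ) :
    (((LE Q).filter fun g => FT Q lab T g = f ∧ bT Q lab T g = k ∧
        (dnT Q lab T g).card = i).card : ℝ) * 2 ^ k =
      (((LE Q).filter fun g => FT Q lab T g = f ∧ bT Q lab T g = k).card : ℝ) * (k.choose i : ℝ) :=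
  cls_count48 hT f k i

end Pool.LH9
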