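import Pool.Agent.LH9.Defs
import Pool.Agent.SC25.FlipE1

set_option autoImplicit false

/-!
# LH9/GenFS14: moment generating function by classes
-/

namespace Pool.LH9

open Pool.HB45 Pool.HM63 Pool.PH43 Pool.SC25 Pool.NL25

theorem MG_cls14 {N : ℕ} {Q : Rel (N + 1)} {lab : Fin (N + 1) → ℕ} {T : Finset (Fin N)} (hT : Sep T)
    (s : ℝ) :
    ∑ g ∈ LE Q, Real.exp (s * FT Q lab T g / 2) * Real.cosh (s / 2) ^ bT Q lab T g =
      MG Q lab s := by
  have hr : 0 < Real.exp (-s) := Real.exp_pos _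
  have h1 := all_pos (Q := Q) (lab := lab) hT (Real.exp (-s))
    (Real.exp (-(s / 2)) * Real.cosh (s / 2)) (Real.exp (s / 2) * Real.cosh (s / 2)) hr
  have h2 : (Real.exp (-(s / 2)) * Real.cosh (s / 2) +
      Real.exp (-s) * (Real.exp (s / 2) * Real.cosh (s / 2))) / (1 + Real.exp (-s)) = 1 := by
    have h3 : Real.exp (-s) * Real.exp (s / 2) = Real.exp (-(s / 2)) := by
      rw [← Real.exp_add]; congr 1; ring
    have h4 : Real.exp (-(s / 2)) * Real.exp (s / 2) = 1 := by
      rw [← Real.exp_add]; simp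
    have h5 : Real.exp (-(s / 2)) * Real.exp (-(s / 2)) = Real.exp (-s) := by
      rw [← Real.exp_add]; congr 1; ring
    have h6 : Real.exp (-(s / 2)) * Real.cosh (s / 2) +
      Real.exp (-s) * (Real.exp (s / 2) * Real.cosh (s / 2)) = 1 + Real.exp (-s) := by
      rw [← mul_assoc (Real.exp (-s)), h3, Real.cosh_eq]
      calc Real.exp (-(s / 2)) * ((Real.exp (s / 2) + Real.exp (-(s / 2))) / 2) +
          Real.exp (-(s / 2)) * ((Real.exp (s / 2) + Real.exp (-(s / 2))) / 2) =
          Real.exp (-(s / 2)) * Real.exp (s / 2) + Real.exp (-(s / 2)) * Real.exp (-(s / 2)) := by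
            ring
        _ = _ := by rw [h4, h5]
    rw [h6]
    exact div_self (by positivity)
  rw [h2] at h1
  simp only [one_pow, mul_one] at h1
  rw [MG_eq]
  unfold Wr
  rw [← h1, Finset.mul_sum]
  refine Finset.sum_congr rfl fun g _ => ?_
  have h7 : Real.exp (s * FT Q lab T g / 2) =
      Real.exp (s * N / 2) * (Real.exp (-s) ^ des lab g * (Real.exp (-(s / 2)) ^
        (upT Q lab T g).card * Real.exp (s / 2) ^ (dnT Q lab T g).card)) := by
    rw [← Real.exp_nat_mul, ← Real.exp_nat_mul, ← Real.exp_nat_mul, ← Real.exp_add,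
      ← Real.exp_add, ← Real.exp_add]
    congr 1
    unfold FT
    push_cast
    ring
  rw [h7]
  unfold bT
  rw [mul_pow, mul_pow, pow_add]
  ring

open Classical in
theorem cher14 {N : ℕ} {Q : Rel (N + 1)} {lab : Fin (N + 1) → ℕ} {T : Finset (Fin N)} (hT : Sep T)
    (s : ℝ) (b0 : ℕ) :
    (∑ g ∈ (LE Q).filter (fun g => b0 ≤ bT Q lab T g), Real.exp (s * FT Q lab T g / 2)) *
      Real.cosh (s / 2) ^ b0 ≤ MG Q lab s := by
  rw [← MG_cls14 hT s, Finset.sum_mul]
  have h0 : (LE Q).filter (fun g => b0 ≤ bT Q lab T g) ⊆ LE Q := Finset.filter_subset _ _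
  refine le_trans (Finset.sum_le_sum fun g hg => ?_)
    (Finset.sum_le_sum_of_subset_of_nonneg h0 fun g _ _ =>
      mul_nonneg (Real.exp_pos _).le (pow_nonneg (Real.cosh_pos _).le _))
  rw [Finset.mem_filter] at hg
  exact mul_le_mul_of_nonneg_left (pow_le_pow_right₀ (Real.one_le_cosh _) hg.2) (Real.exp_pos _).le

end Pool.LH9
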