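import Pool.Agent.LH9.Defs
import Pool.Agent.SC25.FlipE1
import Pool.Agent.LH9.GenFS14

set_option autoImplicit false

/-!
# LH9/GenF: moment generating function by classes (STUB)
-/

namespace Pool.LH9

open Pool.HB45 Pool.HM63 Pool.PH43 Pool.SC25 Pool.NL25

/-- PROOF. `SC25.all_pos` with `r = e^(-s)`, `x = e^(-s/2) cosh (s/2)`, `y = e^(s/2) cosh (s/2)`: `(x + r y)/(1 + r) = 1`, and
`e^(s FT/2) = e^(sN/2) r^des e^(-s up/2) e^(s dn/2)`; `MG_eq` (`Wr`) or `exp_X`. -/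
theorem MG_cls {N : ℕ} {Q : Rel (N + 1)} {lab : Fin (N + 1) → ℕ} {T : Finset (Fin N)} (hT : Sep T)
    (s : ℝ) :
    ∑ g ∈ LE Q, Real.exp (s * FT Q lab T g / 2) * Real.cosh (s / 2) ^ bT Q lab T g =
      MG Q lab s :=
  MG_cls14 hT s

open Classical in
/-- PROOF. `MG_cls`, `cosh ≥ 1`, all terms nonnegative. -/
theorem cher {N : ℕ} {Q : Rel (N + 1)} {lab : Fin (N + 1) → ℕ} {T : Finset (Fin N)} (hT : Sep T)
    (s : ℝ) (b0 : ℕ) :
    (∑ g ∈ (LE Q).filter (fun g => b0 ≤ bT Q lab T g), Real.exp (s * FT Q lab T g / 2)) *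
      Real.cosh (s / 2) ^ b0 ≤ MG Q lab s :=
  cher14 hT s b0

end Pool.LH9
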