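import Mathlib

set_option autoImplicit false

/-!
# LH9/NumF83: numbers, `cosh_pow` and `num_f1`
-/

namespace Pool.LH9

theorem cosh_pow83 (N b0 : ℕ) (s : ℝ) (hs : |s| ≤ 1 / 2) (hb : (N : ℝ) / 30000 ≤ b0) :
    Real.exp (s ^ 2 * N / 270000) ≤ Real.cosh (s / 2) ^ b0 := by
  have hs2 : s ^ 2 ≤ 1 / 4 := by
    rw [← sq_abs]
    have := abs_nonneg s
    nlinarith
  have h0 : 0 ≤ s ^ 2 := sq_nonneg s
  -- cosh (s/2) ≥ 1 + s^2/8
  have h1 : 1 + s ^ 2 / 8 ≤ Real.cosh (s / 2) := by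
    have e1 : s / 2 = 2 * (s / 4) := by ring
    have e2 : Real.cosh (s / 2) = 1 + 2 * Real.sinh (s / 4) ^ 2 := by
      rw [e1, Real.cosh_two_mul, Real.cosh_sq]
      ring
    have e3 : (s / 4) ^ 2 ≤ Real.sinh (s / 4) ^ 2 := by
      rcases le_total 0 (s / 4) with h | h
      · have h2 := Real.self_le_sinh_iff.2 h
        exact pow_le_pow_left₀ h h2 2
      · have h2 := Real.self_le_sinh_iff.2 (neg_nonneg.2 h)
        rw [Real.sinh_neg] at h2
        have h3 := pow_le_pow_left₀ (neg_nonneg.2 h) h2 2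
        rw [neg_sq, neg_sq] at h3
        exact h3
    rw [e2]
    nlinarith
  -- exp (s^2/9) ≤ 1 + s^2/8
  have h2 : Real.exp (s ^ 2 / 9) ≤ 1 + s ^ 2 / 8 := by
    have h3 := Real.abs_exp_sub_one_sub_id_le (x := s ^ 2 / 9)
      (by rw [abs_of_nonneg (by positivity)]; linarith)
    have h4 := (abs_le.1 h3).2
    have h5 : (s ^ 2 / 9) ^ 2 ≤ s ^ 2 / 9 * (1 / 36) := by nlinarith
    linarith
  have h3 : Real.exp (s ^ 2 / 9) ≤ Real.cosh (s / 2) := h2.trans h1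
  calc Real.exp (s ^ 2 * N / 270000) ≤ Real.exp (b0 * (s ^ 2 / 9)) := by
        apply Real.exp_le_exp.2
        have h4 : s ^ 2 / 9 * ((N : ℝ) / 30000) ≤ s ^ 2 / 9 * b0 :=
          mul_le_mul_of_nonneg_left hb (by positivity)
        linarith
    _ = Real.exp (s ^ 2 / 9) ^ b0 := by rw [← Real.exp_nat_mul]
    _ ≤ Real.cosh (s / 2) ^ b0 := pow_le_pow_left₀ (Real.exp_pos _).le h3 b0

private theorem sq_le_exp {y : ℝ} (hy : 0 ≤ y) : y ^ 2 / 2 ≤ Real.exp y := by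
  have := Real.quadratic_le_exp_of_nonneg hy
  linarith

theorem num_f1_83 : ∃ N0 : ℕ, ∀ N ≥ N0, ∀ (b0 : ℕ) (t : ℝ), (N : ℝ) / 30000 ≤ b0 → 0 < t → t ≤ 1 / 200 →
    10 ^ 14 ≤ t ^ 2 * N →
    2 * (2 * (1 / 10 ^ 7) * t * N + 1) * Real.exp (2 * (1 / 10 ^ 7) * t ^ 2 * N) *
      (Real.exp (-(N / 200000)) + 2 / Real.sqrt b0 * (Real.exp (t * (1 + 1 / 10 ^ 6 * t * N) / 2) *
        Real.exp (-(t ^ 2 * N / 270000)))) ≤ 1 / 2 := by
  refine ⟨10 ^ 13, ?_⟩
  intro N hN b0 t hb ht0 ht hz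
  have hN1 : (10 : ℝ) ^ 13 ≤ N := by exact_mod_cast hN
  have hNpos : (0 : ℝ) < N := by linarith [show (0 : ℝ) < 10 ^ 13 by norm_num]
  have hb0 : (0 : ℝ) < b0 := lt_of_lt_of_le (by positivity) hb
  have hsN : 0 < Real.sqrt N := Real.sqrt_pos.2 hNpos
  have hsN2 : Real.sqrt N ^ 2 = N := Real.sq_sqrt hNpos.le
  have hsb : 0 < Real.sqrt b0 := Real.sqrt_pos.2 hb0
  have hz2N : t ^ 2 * N ≤ N / 40000 := by
    have h1 : t ^ 2 ≤ 1 / 40000 := by nlinarith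
    have := mul_le_mul_of_nonneg_right h1 hNpos.le
    linarith
  have htN : t * N ≤ N := by nlinarith
  have htN0 : 0 ≤ t * N := by positivity
  -- first summand
  have hA : 2 * (2 * (1 / 10 ^ 7) * t * N + 1) * Real.exp (2 * (1 / 10 ^ 7) * t ^ 2 * N) *
      Real.exp (-(N / 200000)) ≤ 1 / 4 := by
    rw [mul_assoc, ← Real.exp_add]
    have h1 : 2 * (1 / 10 ^ 7) * t ^ 2 * (N : ℝ) + -(N / 200000) ≤ -(N / 400000) := by
      have : 2 * (1 / 10 ^ 7) * t ^ 2 * (N : ℝ) = 2 / 10 ^ 7 * (t ^ 2 * N) := by ring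
      rw [this]
      linarith
    have h2 : 2 * (2 * (1 / 10 ^ 7) * t * N + 1) ≤ 4 * (N : ℝ) := by
      have : 2 * (1 / 10 ^ 7) * t * (N : ℝ) = 2 / 10 ^ 7 * (t * N) := by ring
      rw [this]
      linarith
    have h3 := sq_le_exp (y := (N : ℝ) / 400000) (by positivity)
    calc 2 * (2 * (1 / 10 ^ 7) * t * N + 1) *
        Real.exp (2 * (1 / 10 ^ 7) * t ^ 2 * (N : ℝ) + -(N / 200000))
        ≤ 4 * (N : ℝ) * Real.exp (-(N / 400000)) :=
          mul_le_mul h2 (Real.exp_le_exp.2 h1) (Real.exp_pos _).le (by positivity)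
      _ ≤ 1 / 4 := by
          rw [Real.exp_neg, ← div_eq_mul_inv, div_le_iff₀ (Real.exp_pos _)]
          nlinarith
  -- second summand
  set z : ℝ := t * Real.sqrt N with hzdef
  have hz2 : z ^ 2 = t ^ 2 * N := by rw [hzdef, mul_pow, hsN2]
  have hz0 : 0 < z := by positivity
  have hz7 : (10 : ℝ) ^ 7 ≤ z := by
    rw [← hz2] at hz
    by_contra hcon
    push Not at hcon
    have : z ^ 2 < (10 ^ 7) ^ 2 := pow_lt_pow_left₀ hcon hz0.le (by norm_num)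
    linarith [show ((10 : ℝ) ^ 7) ^ 2 = 10 ^ 14 by norm_num]
  have hB : 2 * (2 * (1 / 10 ^ 7) * t * N + 1) * Real.exp (2 * (1 / 10 ^ 7) * t ^ 2 * N) *
      (2 / Real.sqrt b0 * (Real.exp (t * (1 + 1 / 10 ^ 6 * t * N) / 2) *
        Real.exp (-(t ^ 2 * N / 270000)))) ≤ 1 / 4 := by
    have h1 : 2 * (2 * (1 / 10 ^ 7) * t * N + 1) ≤ 4 * (z * Real.sqrt N) := by
      have e1 : 2 * (1 / 10 ^ 7) * t * (N : ℝ) = 2 / 10 ^ 7 * (z * Real.sqrt N) := by
        have : z * Real.sqrt N = t * N := by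
          rw [hzdef, mul_assoc, ← sq, hsN2]
        rw [this]
        ring
      have e2 : 1 ≤ Real.sqrt N := by
        rw [Real.one_le_sqrt]
        linarith
      have e3 : 1 ≤ z * Real.sqrt N := by nlinarith
      rw [e1]
      linarith
    have h2 : Real.exp (2 * (1 / 10 ^ 7) * t ^ 2 * (N : ℝ)) *
        (Real.exp (t * (1 + 1 / 10 ^ 6 * t * N) / 2) * Real.exp (-(t ^ 2 * N / 270000))) ≤
        2 * Real.exp (-(3 / 10 ^ 6 * z ^ 2)) := by
      rw [← Real.exp_add, ← Real.exp_add]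
      have e1 : 2 * (1 / 10 ^ 7) * t ^ 2 * (N : ℝ) + (t * (1 + 1 / 10 ^ 6 * t * N) / 2 +
          -(t ^ 2 * N / 270000)) ≤ 1 / 400 + -(3 / 10 ^ 6 * z ^ 2) := by
        have e2 : 2 * (1 / 10 ^ 7) * t ^ 2 * (N : ℝ) + (t * (1 + 1 / 10 ^ 6 * t * N) / 2 +
          -(t ^ 2 * N / 270000)) = t / 2 + (2 / 10 ^ 7 + 1 / (2 * 10 ^ 6) - 1 / 270000) * (t ^ 2 * N) := by
          ring
        rw [e2, ← hz2]
        have e3 : 0 ≤ z ^ 2 := by positivity
        have e4 : (2 / 10 ^ 7 + 1 / (2 * 10 ^ 6) - 1 / 270000 : ℝ) ≤ -(3 / 10 ^ 6) := by norm_num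
        have := mul_le_mul_of_nonneg_right e4 e3
        linarith
      refine (Real.exp_le_exp.2 e1).trans ?_
      rw [Real.exp_add]
      have e5 : Real.exp (1 / 400) ≤ 2 := by
        have e6 := Real.abs_exp_sub_one_sub_id_le (x := (1 / 400 : ℝ))
          (by rw [abs_of_nonneg (by positivity)]; norm_num)
        have e7 := (abs_le.1 e6).2
        norm_num at e7
        linarith
      exact mul_le_mul_of_nonneg_right e5 (Real.exp_pos _).le
    have h3 : Real.sqrt N ≤ 174 * Real.sqrt b0 := by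
      have e1 : (N : ℝ) ≤ 174 ^ 2 * b0 := by linarith
      calc Real.sqrt N ≤ Real.sqrt (174 ^ 2 * b0) := Real.sqrt_le_sqrt e1
        _ = 174 * Real.sqrt b0 := by
          rw [Real.sqrt_mul (by positivity), Real.sqrt_sq (by norm_num)]
    have h4 : z * Real.exp (-(3 / 10 ^ 6 * z ^ 2)) ≤ 1 / 10 ^ 6 := by
      have e1 := sq_le_exp (y := 3 / 10 ^ 6 * z ^ 2) (by positivity)
      rw [Real.exp_neg, ← div_eq_mul_inv, div_le_iff₀ (Real.exp_pos _)]
      have e2 : (10 : ℝ) ^ 21 ≤ z ^ 3 := by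
        calc (10 : ℝ) ^ 21 = (10 ^ 7) ^ 3 := by norm_num
          _ ≤ z ^ 3 := pow_le_pow_left₀ (by positivity) hz7 3
      have e3 : z ≤ 1 / 10 ^ 6 * ((3 / 10 ^ 6 * z ^ 2) ^ 2 / 2) := by
        have e4 : 1 / 10 ^ 6 * ((3 / 10 ^ 6 * z ^ 2) ^ 2 / 2) = z * (9 / (2 * 10 ^ 18) * z ^ 3) := by
          ring
        rw [e4]
        have e5 : 1 ≤ 9 / (2 * 10 ^ 18) * z ^ 3 := by
          have := mul_le_mul_of_nonneg_left e2 (show (0 : ℝ) ≤ 9 / (2 * 10 ^ 18) by positivity)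
          refine le_trans ?_ this
          norm_num
        nlinarith
      exact e3.trans (mul_le_mul_of_nonneg_left e1 (by positivity))
    have h5 : 0 ≤ z * Real.exp (-(3 / 10 ^ 6 * z ^ 2)) := by positivity
    calc 2 * (2 * (1 / 10 ^ 7) * t * N + 1) * Real.exp (2 * (1 / 10 ^ 7) * t ^ 2 * N) *
      (2 / Real.sqrt b0 * (Real.exp (t * (1 + 1 / 10 ^ 6 * t * N) / 2) *
        Real.exp (-(t ^ 2 * N / 270000))))
        = 2 * (2 * (1 / 10 ^ 7) * t * N + 1) * (2 / Real.sqrt b0) *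
          (Real.exp (2 * (1 / 10 ^ 7) * t ^ 2 * N) * (Real.exp (t * (1 + 1 / 10 ^ 6 * t * N) / 2) *
        Real.exp (-(t ^ 2 * N / 270000)))) := by ring
      _ ≤ 4 * (z * Real.sqrt N) * (2 / Real.sqrt b0) * (2 * Real.exp (-(3 / 10 ^ 6 * z ^ 2))) := by
          apply mul_le_mul (mul_le_mul_of_nonneg_right h1 (by positivity)) h2 (by positivity)
            (by positivity)
      _ = 16 * (Real.sqrt N / Real.sqrt b0) * (z * Real.exp (-(3 / 10 ^ 6 * z ^ 2))) := by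
          field_simp
          ring
      _ ≤ 16 * 174 * (1 / 10 ^ 6) := by
          have e1 : Real.sqrt N / Real.sqrt b0 ≤ 174 := by
            rw [div_le_iff₀ hsb]
            exact h3
          apply mul_le_mul _ h4 h5 (by norm_num)
          exact mul_le_mul_of_nonneg_left e1 (by norm_num)
      _ ≤ 1 / 4 := by norm_num
  calc 2 * (2 * (1 / 10 ^ 7) * t * N + 1) * Real.exp (2 * (1 / 10 ^ 7) * t ^ 2 * N) *
      (Real.exp (-(N / 200000)) + 2 / Real.sqrt b0 * (Real.exp (t * (1 + 1 / 10 ^ 6 * t * N) / 2) *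
        Real.exp (-(t ^ 2 * N / 270000))))
      = 2 * (2 * (1 / 10 ^ 7) * t * N + 1) * Real.exp (2 * (1 / 10 ^ 7) * t ^ 2 * N) *
      Real.exp (-(N / 200000)) + 2 * (2 * (1 / 10 ^ 7) * t * N + 1) *
      Real.exp (2 * (1 / 10 ^ 7) * t ^ 2 * N) *
      (2 / Real.sqrt b0 * (Real.exp (t * (1 + 1 / 10 ^ 6 * t * N) / 2) *
        Real.exp (-(t ^ 2 * N / 270000)))) := by ring
    _ ≤ 1 / 4 + 1 / 4 := add_le_add hA hB
    _ = 1 / 2 := by norm_num

end Pool.LH9
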