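import Pool.Agent.LH9.NumF2S
import Mathlib
import Pool.Agent.LH9.NumF83

set_option autoImplicit false

/-!
# LH9/NumF: numbers (STUB)

`δ = 1/10^7`, `θ = 1/10^6`, `t = |s|`, `z² = t² N ≥ 10^14`, `t ≤ 1/200`, `b0 ≥ N/30000`.
-/

namespace Pool.LH9

/-- `cosh (s/2)^(-b0) ≤ e^(-s² N/270000)` for `|s| ≤ 1/2`. PROOF. `cosh (s/2) ≥ 1 + s²/8 ≥ e^(s²/9)`. -/
theorem cosh_pow (N b0 : ℕ) (s : ℝ) (hs : |s| ≤ 1 / 2) (hb : (N : ℝ) / 30000 ≤ b0) :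
    Real.exp (s ^ 2 * N / 270000) ≤ Real.cosh (s / 2) ^ b0 := by
  exact cosh_pow83 N b0 s hs hb

/-- (N1). PROOF. `e^(2δz²) e^(θ z²/2) e^(-z²/270000) ≤ e^(-3 z²/10^6)` and `z² ≥ 10^14`, `2/√b0 ≤ 2`, `t N ≤ z²` (as
`z² = t² N = t (tN)`... use `tN ≤ t² N * (1/t)` only through `t² N ≤ N` if needed: simplest is `2 δ t N + 1 ≤ N + 1` for the first
summand, where `e^(2δz²) ≤ e^(N/10^10)`; and for the second `2 δ t N + 1 ≤ z √N + 1`, `√N/√b0 ≤ 174`, `(z + 1) e^(-3z²/10^6)` tiny). -/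
theorem num_f1 : ∃ N0 : ℕ, ∀ N ≥ N0, ∀ (b0 : ℕ) (t : ℝ), (N : ℝ) / 30000 ≤ b0 → 0 < t → t ≤ 1 / 200 →
    10 ^ 14 ≤ t ^ 2 * N →
    2 * (2 * (1 / 10 ^ 7) * t * N + 1) * Real.exp (2 * (1 / 10 ^ 7) * t ^ 2 * N) *
      (Real.exp (-(N / 200000)) + 2 / Real.sqrt b0 * (Real.exp (t * (1 + 1 / 10 ^ 6 * t * N) / 2) *
        Real.exp (-(t ^ 2 * N / 270000)))) ≤ 1 / 2 := by
  exact num_f1_83

/-- (N2). PROOF. As (N1): second summand `2/b0 · 2/√b0 · 2/t · 2 · e^(-z²/270000)`, `1/t = √N/z`, `b0 ≥ N/30000`, against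
`t = z/√N`. -/
theorem num_f2 : ∃ N0 : ℕ, ∀ N ≥ N0, ∀ (b0 : ℕ) (t : ℝ), (N : ℝ) / 30000 ≤ b0 → 0 < t → t ≤ 1 / 200 →
    10 ^ 14 ≤ t ^ 2 * N →
    2 * (2 * (1 / 10 ^ 7) * t * N + 1) * Real.exp (2 * (1 / 10 ^ 7) * t ^ 2 * N) *
      (2 / b0 * (2 / Real.sqrt b0 * (2 / t * Real.exp (t / 2) *
        Real.exp (-(t ^ 2 * N / 270000)))) + Real.exp (-(N / 200000))) ≤
      1 / 10 ^ 6 * t * N / (N + 1) * (1 / 2) :=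
  num_f2S

end Pool.LH9
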