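import Pool.Agent.LH9.LocF
import Pool.Agent.LH9.GenF
import Pool.Agent.LH9.NumF
import Pool.Agent.NL25.Stein

set_option autoImplicit false

/-!
# LH9/Core: the common estimate for both sides
-/

namespace Pool.LH9

open Pool.HB45 Pool.HM63 Pool.PH43 Pool.SC25 Pool.NL25

open Classical in
theorem w_eq_card {N : ℕ} (Q : Rel (N + 1)) (lab : Fin (N + 1) → ℕ) (j : ℕ) :
    w Q lab j = ((LE Q).filter fun g => des lab g = j).card := by
  unfold w
  congr

open Classical in
theorem core {N : ℕ} {Q : Rel (N + 1)} {lab : Fin (N + 1) → ℕ} (hn : Nat' Q lab)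
    {T : Finset (Fin N)} (hT : Sep T) (J b0 : ℕ) (hb0 : 1 ≤ b0) (hb : (N : ℝ) / 30000 ≤ b0)
    (s t : ℝ) (ht : t = |s|) (ht0 : 0 < t) (ht1 : t ≤ 1 / 200)
    (H1 : MG Q lab s * Real.exp (-(2 * (1 / 10 ^ 7) * s ^ 2 * N)) ≤
      2 * (2 * (1 / 10 ^ 7) * |s| * N + 1) * (w Q lab J * Real.exp (s * (N - 2 * J) / 2)))
    (H2 : (((LE Q).filter fun g => bT Q lab T g < b0).card : ℝ) ≤
      Real.exp (-(N / 100000)) * (LE Q).card)
    (H4 : s * (((N : ℝ) - 2 * J) - GG Q) / 2 ≤ s ^ 2 * N / 12)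
    (N1 : 2 * (2 * (1 / 10 ^ 7) * t * N + 1) * Real.exp (2 * (1 / 10 ^ 7) * t ^ 2 * N) *
      (Real.exp (-(N / 200000)) + 2 / Real.sqrt b0 * (Real.exp (t * (1 + 1 / 10 ^ 6 * t * N) / 2) *
        Real.exp (-(t ^ 2 * N / 270000)))) ≤ 1 / 2)
    (N2 : 2 * (2 * (1 / 10 ^ 7) * t * N + 1) * Real.exp (2 * (1 / 10 ^ 7) * t ^ 2 * N) *
      (2 / b0 * (2 / Real.sqrt b0 * (2 / t * Real.exp (t / 2) *
        Real.exp (-(t ^ 2 * N / 270000)))) + Real.exp (-(N / 200000))) ≤
      1 / 10 ^ 6 * t * N / (N + 1) * (1 / 2))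
    (ψ : ℤ → ℝ) (hψ0 : ∀ f, 0 ≤ ψ f)
    (hψ : ∀ f : ℤ, ψ f ≤ 2 / t * Real.exp (t / 2) * Real.exp (s * ((f : ℝ) - ((N : ℝ) - 2 * J)) / 2))
    (G : ℤ → Prop) (hG : ∀ f : ℤ, ¬ G f → 1 ≤ Real.exp (t * (1 + 1 / 10 ^ 6 * t * N) / 2) *
      Real.exp (s * ((f : ℝ) - ((N : ℝ) - 2 * J)) / 2)) :
    2 / (b0 : ℝ) * ∑ g ∈ (LE Q).filter (fun g => des lab g = J ∧ b0 ≤ bT Q lab T g),
          ψ (FT Q lab T g) +
        (((LE Q).filter fun g => bT Q lab T g < b0).card : ℝ) ≤
      (1 / 10 ^ 6 * t * N) / (N + 1) * (((LE Q).filter fun g => des lab g = J ∧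
        G (FT Q lab T g)).card : ℝ) := by
  have hst : s ^ 2 = t ^ 2 := by rw [ht, sq_abs]
  have hsabs : |s| ≤ 1 / 2 := by rw [← ht]; linarith
  have hb0' : (0 : ℝ) < b0 := by exact_mod_cast hb0
  have hsq0 : 0 < Real.sqrt b0 := Real.sqrt_pos.2 hb0'
  -- `E`
  obtain ⟨E, hE⟩ : ∃ E, E = MG Q lab s * Real.exp (-(s * ((N : ℝ) - 2 * J) / 2)) := ⟨_, rfl⟩
  have hE0 : 0 < E := by
    rw [hE]
    exact mul_pos (MG_pos hn s) (Real.exp_pos _)
  obtain ⟨A, hA⟩ : ∃ A, A = 2 * (2 * (1 / 10 ^ 7) * t * N + 1) *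
      Real.exp (2 * (1 / 10 ^ 7) * t ^ 2 * N) := ⟨_, rfl⟩
  have hA0 : 0 ≤ A := by rw [hA]; positivity
  have hEW : E ≤ A * w Q lab J := by
    rw [← ht, hst] at H1
    have e1 : Real.exp (-(2 * (1 / 10 ^ 7) * t ^ 2 * N)) * Real.exp (2 * (1 / 10 ^ 7) * t ^ 2 * N) = 1 := by
      rw [← Real.exp_add, neg_add_cancel, Real.exp_zero]
    have e2 : Real.exp (s * ((N : ℝ) - 2 * J) / 2) * Real.exp (-(s * ((N : ℝ) - 2 * J) / 2)) = 1 := by
      rw [← Real.exp_add, add_neg_cancel, Real.exp_zero]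
    calc E = (MG Q lab s * Real.exp (-(2 * (1 / 10 ^ 7) * t ^ 2 * N))) *
          (Real.exp (2 * (1 / 10 ^ 7) * t ^ 2 * N) * Real.exp (-(s * ((N : ℝ) - 2 * J) / 2))) := by
          rw [hE]
          calc MG Q lab s * Real.exp (-(s * ((N : ℝ) - 2 * J) / 2))
              = MG Q lab s * (Real.exp (-(2 * (1 / 10 ^ 7) * t ^ 2 * N)) *
                Real.exp (2 * (1 / 10 ^ 7) * t ^ 2 * N)) * Real.exp (-(s * ((N : ℝ) - 2 * J) / 2)) := by
                rw [e1, mul_one]
            _ = _ := by ring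
      _ ≤ (2 * (2 * (1 / 10 ^ 7) * t * N + 1) * (w Q lab J * Real.exp (s * (N - 2 * J) / 2))) *
          (Real.exp (2 * (1 / 10 ^ 7) * t ^ 2 * N) * Real.exp (-(s * ((N : ℝ) - 2 * J) / 2))) :=
          mul_le_mul_of_nonneg_right H1 (by positivity)
      _ = A * w Q lab J * (Real.exp (s * ((N : ℝ) - 2 * J) / 2) *
          Real.exp (-(s * ((N : ℝ) - 2 * J) / 2))) := by rw [hA]; ring
      _ = _ := by rw [e2, mul_one]
  -- Chernoff
  obtain ⟨S0, hS0⟩ : ∃ S0, S0 = ∑ g ∈ (LE Q).filter (fun g => b0 ≤ bT Q lab T g),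
    Real.exp (s * ((FT Q lab T g : ℝ) - ((N : ℝ) - 2 * J)) / 2) := ⟨_, rfl⟩
  have hS0E : S0 ≤ E * Real.exp (-(t ^ 2 * N / 270000)) := by
    have h1 := cher hT s b0 (Q := Q) (lab := lab)
    have h2 := cosh_pow N b0 s hsabs hb
    have h3 : 0 ≤ ∑ g ∈ (LE Q).filter (fun g => b0 ≤ bT Q lab T g),
        Real.exp (s * FT Q lab T g / 2) := Finset.sum_nonneg fun _ _ => (Real.exp_pos _).le
    have h4 := (mul_le_mul_of_nonneg_left h2 h3).trans h1
    have h5 : S0 = (∑ g ∈ (LE Q).filter (fun g => b0 ≤ bT Q lab T g),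
        Real.exp (s * FT Q lab T g / 2)) * Real.exp (-(s * ((N : ℝ) - 2 * J) / 2)) := by
      rw [hS0, Finset.sum_mul]
      refine Finset.sum_congr rfl fun g _ => ?_
      rw [← Real.exp_add]
      congr 1
      ring
    have h6 : Real.exp (s ^ 2 * N / 270000) * Real.exp (-(t ^ 2 * N / 270000)) = 1 := by
      rw [hst, ← Real.exp_add, add_neg_cancel, Real.exp_zero]
    calc S0 = (∑ g ∈ (LE Q).filter (fun g => b0 ≤ bT Q lab T g),
        Real.exp (s * FT Q lab T g / 2)) * Real.exp (s ^ 2 * N / 270000) *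
          (Real.exp (-(s * ((N : ℝ) - 2 * J) / 2)) * Real.exp (-(t ^ 2 * N / 270000))) := by
          rw [h5]
          calc (∑ g ∈ (LE Q).filter (fun g => b0 ≤ bT Q lab T g),
              Real.exp (s * FT Q lab T g / 2)) * Real.exp (-(s * ((N : ℝ) - 2 * J) / 2))
              = (∑ g ∈ (LE Q).filter (fun g => b0 ≤ bT Q lab T g),
              Real.exp (s * FT Q lab T g / 2)) * Real.exp (-(s * ((N : ℝ) - 2 * J) / 2)) *
                (Real.exp (s ^ 2 * N / 270000) * Real.exp (-(t ^ 2 * N / 270000))) := by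
                rw [h6, mul_one]
            _ = _ := by ring
      _ ≤ MG Q lab s * (Real.exp (-(s * ((N : ℝ) - 2 * J) / 2)) *
          Real.exp (-(t ^ 2 * N / 270000))) := mul_le_mul_of_nonneg_right h4 (by positivity)
      _ = _ := by rw [hE]; ring
  -- `bad0`
  obtain ⟨B0, hB0⟩ : ∃ B0 : ℝ, B0 = (((LE Q).filter fun g => bT Q lab T g < b0).card : ℝ) := ⟨_, rfl⟩
  have hB0E : B0 ≤ Real.exp (-(N / 200000)) * E := by
    rw [hB0]
    refine H2.trans ?_
    have h1 := jensen hn s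
    have h2 : ((LE Q).card : ℝ) ≤ Real.exp (s ^ 2 * N / 12) * E := by
      rw [hE]
      calc ((LE Q).card : ℝ) = (LE Q).card * Real.exp (s * GG Q / 2) * Real.exp (-(s * GG Q / 2)) := by
            rw [mul_assoc, ← Real.exp_add, add_neg_cancel, Real.exp_zero, mul_one]
        _ ≤ MG Q lab s * Real.exp (-(s * GG Q / 2)) :=
            mul_le_mul_of_nonneg_right h1 (Real.exp_pos _).le
        _ ≤ MG Q lab s * Real.exp (s ^ 2 * N / 12 - s * ((N : ℝ) - 2 * J) / 2) := by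
            apply mul_le_mul_of_nonneg_left _ (MG_pos hn s).le
            apply Real.exp_le_exp.2
            linarith
        _ = _ := by
            rw [sub_eq_add_neg, Real.exp_add]
            ring
    calc Real.exp (-(N / 100000)) * ((LE Q).card : ℝ) ≤
        Real.exp (-(N / 100000)) * (Real.exp (s ^ 2 * N / 12) * E) :=
          mul_le_mul_of_nonneg_left h2 (Real.exp_pos _).le
      _ = Real.exp (-(N / 100000) + s ^ 2 * N / 12) * E := by rw [Real.exp_add]; ring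
      _ ≤ Real.exp (-(N / 200000)) * E := by
          apply mul_le_mul_of_nonneg_right _ hE0.le
          apply Real.exp_le_exp.2
          have h3 : s ^ 2 ≤ 1 / 40000 := by
            rw [hst]
            nlinarith
          have h4 : (0 : ℝ) ≤ N := Nat.cast_nonneg N
          nlinarith
  -- `bad1`
  have hB1 : ∑ g ∈ (LE Q).filter (fun g => des lab g = J ∧ b0 ≤ bT Q lab T g),
      ψ (FT Q lab T g) ≤ 2 / Real.sqrt b0 * (2 / t * Real.exp (t / 2) *
        Real.exp (-(t ^ 2 * N / 270000))) * E := by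
    refine (loc_le hT J b0 hb0 ψ hψ0).trans ?_
    have h1 : ∑ g ∈ (LE Q).filter (fun g => b0 ≤ bT Q lab T g), ψ (FT Q lab T g) ≤
        2 / t * Real.exp (t / 2) * S0 := by
      rw [hS0, Finset.mul_sum]
      exact Finset.sum_le_sum fun g _ => hψ _
    calc 2 / Real.sqrt b0 * ∑ g ∈ (LE Q).filter (fun g => b0 ≤ bT Q lab T g), ψ (FT Q lab T g)
        ≤ 2 / Real.sqrt b0 * (2 / t * Real.exp (t / 2) * (E * Real.exp (-(t ^ 2 * N / 270000)))) := by
          apply mul_le_mul_of_nonneg_left _ (by positivity)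
          exact h1.trans (mul_le_mul_of_nonneg_left hS0E (by positivity))
      _ = _ := by ring
  -- not good
  have hng : (((LE Q).filter fun g => des lab g = J ∧ ¬ G (FT Q lab T g)).card : ℝ) ≤
      (Real.exp (-(N / 200000)) + 2 / Real.sqrt b0 * (Real.exp (t * (1 + 1 / 10 ^ 6 * t * N) / 2) *
        Real.exp (-(t ^ 2 * N / 270000)))) * E := by
    have h1 : ((LE Q).filter fun g => des lab g = J ∧ ¬ G (FT Q lab T g)) ⊆
        ((LE Q).filter fun g => bT Q lab T g < b0) ∪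
        (((LE Q).filter fun g => des lab g = J ∧ b0 ≤ bT Q lab T g).filter
          fun g => ¬ G (FT Q lab T g)) := by
      intro g hg
      rw [Finset.mem_filter] at hg
      rw [Finset.mem_union, Finset.mem_filter, Finset.mem_filter, Finset.mem_filter]
      rcases lt_or_ge (bT Q lab T g) b0 with h | h
      · exact Or.inl ⟨hg.1, h⟩
      · exact Or.inr ⟨⟨hg.1, hg.2.1, h⟩, hg.2.2⟩
    have h2 := (Finset.card_le_card h1).trans (Finset.card_union_le _ _)
    have h3 : (((LE Q).filter fun g => des lab g = J ∧ ¬ G (FT Q lab T g)).card : ℝ) ≤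
        B0 + ((((LE Q).filter fun g => des lab g = J ∧ b0 ≤ bT Q lab T g).filter
          fun g => ¬ G (FT Q lab T g)).card : ℝ) := by
      rw [hB0]
      exact_mod_cast h2
    have h4 : ((((LE Q).filter fun g => des lab g = J ∧ b0 ≤ bT Q lab T g).filter
          fun g => ¬ G (FT Q lab T g)).card : ℝ) =
        ∑ g ∈ (LE Q).filter (fun g => des lab g = J ∧ b0 ≤ bT Q lab T g),
          (if ¬ G (FT Q lab T g) then (1 : ℝ) else 0) := by
      rw [Finset.card_filter]
      push_cast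
      rfl
    have h5 := loc_le hT J b0 hb0 (Q := Q) (lab := lab) (fun f => if ¬ G f then (1 : ℝ) else 0)
      (fun f => by
        show (0 : ℝ) ≤ if ¬ G f then (1 : ℝ) else 0
        split_ifs <;> norm_num)
    have h6 : ∑ g ∈ (LE Q).filter (fun g => b0 ≤ bT Q lab T g),
        (if ¬ G (FT Q lab T g) then (1 : ℝ) else 0) ≤
        Real.exp (t * (1 + 1 / 10 ^ 6 * t * N) / 2) * S0 := by
      rw [hS0, Finset.mul_sum]
      refine Finset.sum_le_sum fun g _ => ?_
      by_cases h : G (FT Q lab T g)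
      · rw [if_neg (not_not.2 h)]
        positivity
      · rw [if_pos h]
        exact hG _ h
    have h7 : 2 / Real.sqrt b0 * ∑ g ∈ (LE Q).filter (fun g => b0 ≤ bT Q lab T g),
        (if ¬ G (FT Q lab T g) then (1 : ℝ) else 0) ≤
        2 / Real.sqrt b0 * (Real.exp (t * (1 + 1 / 10 ^ 6 * t * N) / 2) *
          (E * Real.exp (-(t ^ 2 * N / 270000)))) := by
      apply mul_le_mul_of_nonneg_left _ (by positivity)
      exact h6.trans (mul_le_mul_of_nonneg_left hS0E (by positivity))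
    rw [h4] at h3
    calc _ ≤ B0 + 2 / Real.sqrt b0 * (Real.exp (t * (1 + 1 / 10 ^ 6 * t * N) / 2) *
          (E * Real.exp (-(t ^ 2 * N / 270000)))) := h3.trans (add_le_add le_rfl (h5.trans h7))
      _ ≤ Real.exp (-(N / 200000)) * E + 2 / Real.sqrt b0 *
          (Real.exp (t * (1 + 1 / 10 ^ 6 * t * N) / 2) *
          (E * Real.exp (-(t ^ 2 * N / 270000)))) := by linarith
      _ = _ := by ring
  -- half are good
  have hW0 : (0 : ℝ) ≤ w Q lab J := Nat.cast_nonneg _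
  have hng2 : (((LE Q).filter fun g => des lab g = J ∧ ¬ G (FT Q lab T g)).card : ℝ) ≤
      1 / 2 * w Q lab J := by
    refine hng.trans ?_
    calc (Real.exp (-(N / 200000)) + 2 / Real.sqrt b0 *
          (Real.exp (t * (1 + 1 / 10 ^ 6 * t * N) / 2) * Real.exp (-(t ^ 2 * N / 270000)))) * E
        ≤ (Real.exp (-(N / 200000)) + 2 / Real.sqrt b0 *
          (Real.exp (t * (1 + 1 / 10 ^ 6 * t * N) / 2) * Real.exp (-(t ^ 2 * N / 270000)))) *
          (A * w Q lab J) := mul_le_mul_of_nonneg_left hEW (by positivity)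
      _ = (A * (Real.exp (-(N / 200000)) + 2 / Real.sqrt b0 *
          (Real.exp (t * (1 + 1 / 10 ^ 6 * t * N) / 2) * Real.exp (-(t ^ 2 * N / 270000))))) *
          w Q lab J := by ring
      _ ≤ 1 / 2 * w Q lab J := mul_le_mul_of_nonneg_right (by rw [hA]; exact N1) hW0
  have hgood : 1 / 2 * (w Q lab J : ℝ) ≤
      (((LE Q).filter fun g => des lab g = J ∧ G (FT Q lab T g)).card : ℝ) := by
    have h1 : (w Q lab J : ℝ) = (((LE Q).filter fun g => des lab g = J ∧ G (FT Q lab T g)).card : ℝ) +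
        (((LE Q).filter fun g => des lab g = J ∧ ¬ G (FT Q lab T g)).card : ℝ) := by
      rw [w_eq_card]
      have h2 := Finset.card_filter_add_card_filter_not (s := (LE Q).filter fun g => des lab g = J)
        (fun g => G (FT Q lab T g))
      rw [Finset.filter_filter, Finset.filter_filter] at h2
      exact_mod_cast h2.symm
    linarith
  -- end
  have hfac : 0 ≤ 1 / 10 ^ 6 * t * N / (N + 1 : ℝ) := by positivity
  calc 2 / (b0 : ℝ) * ∑ g ∈ (LE Q).filter (fun g => des lab g = J ∧ b0 ≤ bT Q lab T g),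
          ψ (FT Q lab T g) + (((LE Q).filter fun g => bT Q lab T g < b0).card : ℝ)
      ≤ 2 / (b0 : ℝ) * (2 / Real.sqrt b0 * (2 / t * Real.exp (t / 2) *
        Real.exp (-(t ^ 2 * N / 270000))) * E) + Real.exp (-(N / 200000)) * E := by
        rw [← hB0]
        exact add_le_add (mul_le_mul_of_nonneg_left hB1 (by positivity)) hB0E
    _ = (2 / b0 * (2 / Real.sqrt b0 * (2 / t * Real.exp (t / 2) *
        Real.exp (-(t ^ 2 * N / 270000)))) + Real.exp (-(N / 200000))) * E := by ring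
    _ ≤ (2 / b0 * (2 / Real.sqrt b0 * (2 / t * Real.exp (t / 2) *
        Real.exp (-(t ^ 2 * N / 270000)))) + Real.exp (-(N / 200000))) * (A * w Q lab J) :=
        mul_le_mul_of_nonneg_left hEW (by positivity)
    _ = A * (2 / b0 * (2 / Real.sqrt b0 * (2 / t * Real.exp (t / 2) *
        Real.exp (-(t ^ 2 * N / 270000)))) + Real.exp (-(N / 200000))) * w Q lab J := by ring
    _ ≤ 1 / 10 ^ 6 * t * N / (N + 1) * (1 / 2) * w Q lab J :=
        mul_le_mul_of_nonneg_right (by rw [hA]; exact N2) hW0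
    _ = 1 / 10 ^ 6 * t * N / (N + 1) * (1 / 2 * w Q lab J) := by ring
    _ ≤ _ := mul_le_mul_of_nonneg_left hgood hfac

end Pool.LH9
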