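import Pool.Agent.NL25.Defs

set_option autoImplicit false

/-!
# LH9/Defs: the middle of the descent sequence without the logarithm (MP_dcdbc5_co)

`T` a set of separated swap positions, `up` / `dn` = number of positions of `T` whose swap creates / removes a descent.
`bT = up + dn`, `FT = N - 2 des - (up - dn)` = mean of `X` over the flip class of the word (both are class invariants).
-/

namespace Pool.LH9

open Pool.HB45 Pool.HM63 Pool.PH43 Pool.SC25 Pool.NL25

/-- number of flips -/
noncomputable def bT {N : ℕ} (Q : Rel (N + 1)) (lab : Fin (N + 1) → ℕ) (T : Finset (Fin N))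
    (g : Equiv.Perm (Fin (N + 1))) : ℕ :=
  (upT Q lab T g).card + (dnT Q lab T g).card

/-- mean of `X` over the flip class -/
noncomputable def FT {N : ℕ} (Q : Rel (N + 1)) (lab : Fin (N + 1) → ℕ) (T : Finset (Fin N))
    (g : Equiv.Perm (Fin (N + 1))) : ℤ :=
  (N : ℤ) - 2 * des lab g - (upT Q lab T g).card + (dnT Q lab T g).card

/-- negative part, left side -/
noncomputable def ps1 (a f : ℤ) : ℝ := if a ≤ f then (f : ℝ) - a + 1 else 0

/-- negative part, right side -/
noncomputable def ps2 (a f : ℤ) : ℝ := if f ≤ a then (a : ℝ) - f + 1 else 0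

theorem ps1_nonneg (a f : ℤ) : 0 ≤ ps1 a f := by
  unfold ps1
  split_ifs with h
  · have : (a : ℝ) ≤ f := by exact_mod_cast h
    linarith
  · exact le_rfl

theorem ps2_nonneg (a f : ℤ) : 0 ≤ ps2 a f := by
  unfold ps2
  split_ifs with h
  · have : (f : ℝ) ≤ a := by exact_mod_cast h
    linarith
  · exact le_rfl

end Pool.LH9
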