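import Pool.Agent.LH9.Cls
import Pool.Agent.LH9.Cho

set_option autoImplicit false

/-!
# LH9/LocFS48: proof of `loc_le`
-/

namespace Pool.LH9

open Pool.HB45 Pool.HM63 Pool.PH43 Pool.SC25 Pool.NL25

open Classical in
/-- one fibre -/
theorem loc_fib48 {N : ℕ} {Q : Rel (N + 1)} {lab : Fin (N + 1) → ℕ} {T : Finset (Fin N)}
    (hT : Sep T) (j b0 : ℕ) (hb0 : 1 ≤ b0) (f : ℤ) (k : ℕ) (hk : b0 ≤ k) :
    (((LE Q).filter fun g => (FT Q lab T g = f ∧ bT Q lab T g = k) ∧ des lab g = j).card : ℝ) ≤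
      2 / Real.sqrt b0 *
        (((LE Q).filter fun g => FT Q lab T g = f ∧ bT Q lab T g = k).card : ℝ) := by
  have hb0' : (1 : ℝ) ≤ b0 := by exact_mod_cast hb0
  have hk' : (b0 : ℝ) ≤ k := by exact_mod_cast hk
  have hk1 : (1 : ℝ) ≤ k := hb0'.trans hk'
  have hsb : 0 < Real.sqrt (b0 : ℝ) := Real.sqrt_pos.2 (by linarith)
  have hsk : 0 < Real.sqrt (k : ℝ) := Real.sqrt_pos.2 (by linarith)
  have hsbk : Real.sqrt (b0 : ℝ) ≤ Real.sqrt (k : ℝ) := Real.sqrt_le_sqrt hk'
  rcases Finset.eq_empty_or_nonempty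
    ((LE Q).filter fun g => (FT Q lab T g = f ∧ bT Q lab T g = k) ∧ des lab g = j) with he | hne
  · rw [he, Finset.card_empty, Nat.cast_zero]
    positivity
  · obtain ⟨g0, hg0⟩ := hne
    rw [Finset.mem_filter] at hg0
    obtain ⟨-, ⟨hf0, hk0⟩, hj0⟩ := hg0
    obtain ⟨i, hi⟩ : ∃ i, i = (dnT Q lab T g0).card := ⟨_, rfl⟩
    have hsub : ((LE Q).filter fun g => (FT Q lab T g = f ∧ bT Q lab T g = k) ∧
        des lab g = j) ⊆ (LE Q).filter fun g => FT Q lab T g = f ∧ bT Q lab T g = k ∧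
        (dnT Q lab T g).card = i := by
      intro g hg
      rw [Finset.mem_filter] at hg ⊢
      obtain ⟨h1, ⟨h2, h3⟩, h4⟩ := hg
      refine ⟨h1, h2, h3, ?_⟩
      unfold FT at h2 hf0
      unfold bT at h3 hk0
      rw [h4] at h2
      rw [hj0] at hf0
      omega
    have h1 := cls_count (Q := Q) (lab := lab) hT f k i
    have h2 := choose_mul_sqrt k i
    set c := (((LE Q).filter fun g => (FT Q lab T g = f ∧ bT Q lab T g = k) ∧
      des lab g = j).card : ℝ) with hc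
    set d := (((LE Q).filter fun g => FT Q lab T g = f ∧ bT Q lab T g = k ∧
      (dnT Q lab T g).card = i).card : ℝ) with hd
    set n := (((LE Q).filter fun g => FT Q lab T g = f ∧ bT Q lab T g = k).card : ℝ) with hn
    have hcd : c ≤ d := by
      rw [hc, hd]
      exact_mod_cast Finset.card_le_card hsub
    have hc0 : 0 ≤ c := Nat.cast_nonneg _
    have hn0 : 0 ≤ n := Nat.cast_nonneg _
    have h2k : (0 : ℝ) < 2 ^ k := by positivity
    have h3 : c * Real.sqrt k ≤ 2 * n := by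
      have h4 : c * Real.sqrt k * 2 ^ k ≤ 2 * n * 2 ^ k := by
        calc c * Real.sqrt k * 2 ^ k ≤ d * Real.sqrt k * 2 ^ k := by
              refine mul_le_mul_of_nonneg_right (mul_le_mul_of_nonneg_right hcd hsk.le) h2k.le
          _ = (d * 2 ^ k) * Real.sqrt k := by ring
          _ = n * (k.choose i * Real.sqrt k) := by
              rw [h1]
              ring
          _ ≤ n * (2 * 2 ^ k) := mul_le_mul_of_nonneg_left h2 hn0
          _ = 2 * n * 2 ^ k := by ring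
      exact le_of_mul_le_mul_right h4 h2k
    rw [div_mul_eq_mul_div, le_div_iff₀ hsb]
    exact (mul_le_mul_of_nonneg_left hsbk hc0).trans h3

open Classical in
theorem loc_le48 {N : ℕ} {Q : Rel (N + 1)} {lab : Fin (N + 1) → ℕ} {T : Finset (Fin N)} (hT : Sep T)
    (j b0 : ℕ) (hb0 : 1 ≤ b0) (ψ : ℤ → ℝ) (hψ : ∀ f, 0 ≤ ψ f) :
    ∑ g ∈ (LE Q).filter (fun g => des lab g = j ∧ b0 ≤ bT Q lab T g), ψ (FT Q lab T g) ≤
      2 / Real.sqrt b0 * ∑ g ∈ (LE Q).filter (fun g => b0 ≤ bT Q lab T g), ψ (FT Q lab T g) := by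
  set S := (LE Q).filter (fun g => b0 ≤ bT Q lab T g) with hS
  set I := S.image (fun g => (FT Q lab T g, bT Q lab T g)) with hI
  have hmap : ∀ g ∈ S, (FT Q lab T g, bT Q lab T g) ∈ I := fun g hg =>
    Finset.mem_image_of_mem _ hg
  have hS2 : (LE Q).filter (fun g => des lab g = j ∧ b0 ≤ bT Q lab T g) =
      S.filter (fun g => des lab g = j) := by
    ext g
    rw [hS, Finset.mem_filter, Finset.mem_filter, Finset.mem_filter]
    tauto
  have hmap2 : ∀ g ∈ S.filter (fun g => des lab g = j), (FT Q lab T g, bT Q lab T g) ∈ I :=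
    fun g hg => hmap g (Finset.mem_filter.1 hg).1
  rw [hS2, ← Finset.sum_fiberwise_of_maps_to hmap2, ← Finset.sum_fiberwise_of_maps_to hmap,
    Finset.mul_sum]
  refine Finset.sum_le_sum fun y hy => ?_
  obtain ⟨f, k⟩ := y
  have hk : b0 ≤ k := by
    rw [hI, Finset.mem_image] at hy
    obtain ⟨g, hg, hgy⟩ := hy
    rw [hS, Finset.mem_filter] at hg
    rw [Prod.mk.injEq] at hgy
    rw [← hgy.2]
    exact hg.2
  have e1 : (S.filter (fun g => (FT Q lab T g, bT Q lab T g) = (f, k))) =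
      (LE Q).filter fun g => FT Q lab T g = f ∧ bT Q lab T g = k := by
    ext g
    rw [hS, Finset.mem_filter, Finset.mem_filter, Finset.mem_filter, Prod.mk.injEq]
    constructor
    · rintro ⟨⟨h1, _⟩, h3⟩
      exact ⟨h1, h3⟩
    · rintro ⟨h1, h2⟩
      exact ⟨⟨h1, by rw [h2.2]; exact hk⟩, h2⟩
  have e2 : ((S.filter (fun g => des lab g = j)).filter
      (fun g => (FT Q lab T g, bT Q lab T g) = (f, k))) =
      (LE Q).filter fun g => (FT Q lab T g = f ∧ bT Q lab T g = k) ∧ des lab g = j := by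
    ext g
    rw [hS, Finset.mem_filter, Finset.mem_filter, Finset.mem_filter, Finset.mem_filter,
      Prod.mk.injEq]
    constructor
    · rintro ⟨⟨⟨h1, _⟩, h4⟩, h3⟩
      exact ⟨h1, h3, h4⟩
    · rintro ⟨h1, h2, h3⟩
      exact ⟨⟨⟨h1, by rw [h2.2]; exact hk⟩, h3⟩, h2⟩
  have e3 : ∑ g ∈ (S.filter (fun g => (FT Q lab T g, bT Q lab T g) = (f, k))), ψ (FT Q lab T g) =
      (((LE Q).filter fun g => FT Q lab T g = f ∧ bT Q lab T g = k).card : ℝ) * ψ f := by
    rw [e1]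
    rw [Finset.sum_congr rfl (g := fun _ => ψ f) fun g hg => by rw [(Finset.mem_filter.1 hg).2.1]]
    rw [Finset.sum_const, nsmul_eq_mul]
  have e4 : ∑ g ∈ ((S.filter (fun g => des lab g = j)).filter
      (fun g => (FT Q lab T g, bT Q lab T g) = (f, k))), ψ (FT Q lab T g) =
      (((LE Q).filter fun g => (FT Q lab T g = f ∧ bT Q lab T g = k) ∧
        des lab g = j).card : ℝ) * ψ f := by
    rw [e2]
    rw [Finset.sum_congr rfl (g := fun _ => ψ f) fun g hg => by rw [(Finset.mem_filter.1 hg).2.1.1]]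
    rw [Finset.sum_const, nsmul_eq_mul]
  rw [e3, e4, ← mul_assoc]
  exact mul_le_mul_of_nonneg_right (loc_fib48 hT j b0 hb0 f k hk) (hψ f)

end Pool.LH9
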