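import Pool.Agent.LH9.Cls
import Pool.Agent.LH9.Cho
import Pool.Agent.LH9.LocFS48

set_option autoImplicit false

/-!
# LH9/LocF: one level carries at most `2/√b0` of a class functional (STUB)
-/

namespace Pool.LH9

open Pool.HB45 Pool.HM63 Pool.PH43 Pool.SC25 Pool.NL25

open Classical in
/-- PROOF. Split both sides by the values `(f, k)` of `(FT, bT)` (`Finset.sum_fiberwise`-like, `k ≥ b0 ≥ 1`). In the fibre with
`des = j`: `up - dn = N - 2j - f` and `up + dn = k` fix `dn`; so it is empty or contained in a set `dn = i`, whose number is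
`n(f,k) C(k,i)/2^k ≤ 2 n(f,k)/√k ≤ 2 n(f,k)/√b0` (`cls_count`, `choose_mul_sqrt`). -/
theorem loc_le {N : ℕ} {Q : Rel (N + 1)} {lab : Fin (N + 1) → ℕ} {T : Finset (Fin N)} (hT : Sep T)
    (j b0 : ℕ) (hb0 : 1 ≤ b0) (ψ : ℤ → ℝ) (hψ : ∀ f, 0 ≤ ψ f) :
    ∑ g ∈ (LE Q).filter (fun g => des lab g = j ∧ b0 ≤ bT Q lab T g), ψ (FT Q lab T g) ≤
      2 / Real.sqrt b0 * ∑ g ∈ (LE Q).filter (fun g => b0 ≤ bT Q lab T g), ψ (FT Q lab T g) :=
  loc_le48 hT j b0 hb0 ψ hψ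

end Pool.LH9
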