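import Mathlib

set_option autoImplicit false

/-!
# LH9/NumF2S: numbers

`δ = 1/10^7`, `θ = 1/10^6`, `t = |s|`, `z² = t² N ≥ 10^14`, `t ≤ 1/200`, `b0 ≥ N/30000`.
-/

namespace Pool.LH9

theorem nf_exp2 (y : ℝ) (hy : 0 ≤ y) : (y / 2) ^ 2 ≤ Real.exp y := by
  have h1 : y / 2 ≤ Real.exp (y / 2) := by
    have := Real.add_one_le_exp (y / 2)
    linarith
  calc (y / 2) ^ 2 ≤ Real.exp (y / 2) ^ 2 := pow_le_pow_left₀ (by linarith) h1 2
    _ = Real.exp y := by
      rw [← Real.exp_nat_mul]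
      congr 1
      push_cast
      ring

theorem nf_exp4 (y : ℝ) (hy : 0 ≤ y) : (y / 4) ^ 4 ≤ Real.exp y := by
  have h1 := nf_exp2 (y / 2) (by linarith)
  calc (y / 4) ^ 4 = ((y / 2 / 2) ^ 2) ^ 2 := by ring
    _ ≤ Real.exp (y / 2) ^ 2 := pow_le_pow_left₀ (by positivity) h1 2
    _ = Real.exp y := by
      rw [← Real.exp_nat_mul]
      congr 1
      push_cast
      ring

/-- the first summands -/
theorem nf_A (n t : ℝ) (ht0 : 0 < t) (ht : t ≤ 1 / 200) (hx : 10 ^ 14 ≤ t ^ 2 * n) :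
    2 * (2 * (1 / 10 ^ 7) * t * n + 1) * Real.exp (2 * (1 / 10 ^ 7) * t ^ 2 * n) *
      Real.exp (-(n / 200000)) ≤ 1 / n := by
  have hn : 4 * 10 ^ 18 ≤ n := by
    have h1 : t ^ 2 ≤ (1 / 200) ^ 2 := pow_le_pow_left₀ ht0.le ht 2
    have h2 : 0 < n := by
      by_contra h
      push Not at h
      nlinarith [sq_nonneg t]
    nlinarith
  have hn0 : 0 < n := by linarith
  have hx2 : t ^ 2 * n ≤ n / 40000 := by
    have h1 : t ^ 2 ≤ (1 / 200) ^ 2 := pow_le_pow_left₀ ht0.le ht 2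
    nlinarith
  have h1 : 2 * (1 / 10 ^ 7) * t * n + 1 ≤ n := by nlinarith
  have h2 : Real.exp (2 * (1 / 10 ^ 7) * t ^ 2 * n) * Real.exp (-(n / 200000)) ≤
      Real.exp (-(n / 400000)) := by
    rw [← Real.exp_add]
    apply Real.exp_le_exp.2
    nlinarith
  have h3 := nf_exp4 (n / 400000) (by positivity)
  have h4 : 2 * n * n ≤ Real.exp (n / 400000) := by
    refine le_trans ?_ h3
    have h5 : (n / 400000 / 4) ^ 4 = n * n * (n * n / (1600000 : ℝ) ^ 4) := by ring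
    rw [h5]
    have h6 : 2 ≤ n * n / (1600000 : ℝ) ^ 4 := by
      rw [le_div_iff₀ (by positivity)]
      nlinarith
    nlinarith [mul_pos hn0 hn0]
  have hE : 0 < Real.exp (-(n / 400000)) := Real.exp_pos _
  have h7 : 2 * n * Real.exp (-(n / 400000)) ≤ 1 / n := by
    rw [le_div_iff₀ hn0]
    calc 2 * n * Real.exp (-(n / 400000)) * n = 2 * n * n * Real.exp (-(n / 400000)) := by ring
      _ ≤ Real.exp (n / 400000) * Real.exp (-(n / 400000)) :=
          mul_le_mul_of_nonneg_right h4 hE.le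
      _ = 1 := by rw [← Real.exp_add]; simp
  calc 2 * (2 * (1 / 10 ^ 7) * t * n + 1) * Real.exp (2 * (1 / 10 ^ 7) * t ^ 2 * n) *
      Real.exp (-(n / 200000))
      = 2 * (2 * (1 / 10 ^ 7) * t * n + 1) * (Real.exp (2 * (1 / 10 ^ 7) * t ^ 2 * n) *
      Real.exp (-(n / 200000))) := by ring
    _ ≤ 2 * n * Real.exp (-(n / 400000)) := by
        apply mul_le_mul _ h2 (by positivity) (by positivity)
        linarith
    _ ≤ 1 / n := h7

/-- `1/√b ≤ 174/√n` -/
theorem nf_sqrt (n b : ℝ) (hn : 0 < n) (hb : n / 30000 ≤ b) :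
    1 / Real.sqrt b ≤ 174 / Real.sqrt n := by
  have hb0 : 0 < b := lt_of_lt_of_le (by positivity) hb
  rw [div_le_div_iff₀ (Real.sqrt_pos.2 hb0) (Real.sqrt_pos.2 hn), one_mul]
  apply Real.sqrt_le_iff.2
  refine ⟨by positivity, ?_⟩
  rw [mul_pow, Real.sq_sqrt hb0.le]
  nlinarith

theorem num_f2S : ∃ N0 : ℕ, ∀ N ≥ N0, ∀ (b0 : ℕ) (t : ℝ), (N : ℝ) / 30000 ≤ b0 → 0 < t → t ≤ 1 / 200 →
    10 ^ 14 ≤ t ^ 2 * N →
    2 * (2 * (1 / 10 ^ 7) * t * N + 1) * Real.exp (2 * (1 / 10 ^ 7) * t ^ 2 * N) *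
      (2 / b0 * (2 / Real.sqrt b0 * (2 / t * Real.exp (t / 2) *
        Real.exp (-(t ^ 2 * N / 270000)))) + Real.exp (-(N / 200000))) ≤
      1 / 10 ^ 6 * t * N / (N + 1) * (1 / 2) := by
  refine ⟨0, fun N _ b0 t hb ht0 ht hx => ?_⟩
  generalize hn' : (N : ℝ) = n at *
  generalize hb' : (b0 : ℝ) = b at *
  have hn : 4 * 10 ^ 18 ≤ n := by
    have h1 : t ^ 2 ≤ (1 / 200) ^ 2 := pow_le_pow_left₀ ht0.le ht 2
    have h2 : 0 < n := by
      by_contra h
      push Not at h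
      nlinarith [sq_nonneg t]
    nlinarith
  have hn0 : 0 < n := by linarith
  have hb0 : 0 < b := lt_of_lt_of_le (by positivity) hb
  have hA := nf_A n t ht0 ht hx
  set r := Real.sqrt n with hr
  have hr0 : 0 < r := Real.sqrt_pos.2 hn0
  have hrr : r * r = n := Real.mul_self_sqrt hn0.le
  set z := t * r with hz
  have hz0 : 0 < z := mul_pos ht0 hr0
  have hzz : z * z = t ^ 2 * n := by
    rw [hz, ← hrr]
    ring
  have hz7 : 10 ^ 7 ≤ z := by
    by_contra h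
    push Not at h
    nlinarith
  have htn : t * n = z * r := by
    rw [hz, ← hrr]
    ring
  have hr1 : 1 ≤ r := by nlinarith
  have hS := nf_sqrt n b hn0 hb
  -- the right side
  have hR : 5 / 2 / r ≤ 1 / 10 ^ 6 * t * n / (n + 1) * (1 / 2) := by
    have h1 : t = z / r := by
      rw [hz]
      field_simp
    have h2 : 1 / 2 ≤ n / (n + 1) := by
      rw [div_le_div_iff₀ (by norm_num) (by linarith)]
      linarith
    calc 5 / 2 / r = 1 / 10 ^ 6 * (10 ^ 7 / r) * (1 / 2) * (1 / 2) := by ring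
      _ ≤ 1 / 10 ^ 6 * (z / r) * (n / (n + 1)) * (1 / 2) := by gcongr
      _ = 1 / 10 ^ 6 * t * n / (n + 1) * (1 / 2) := by
          rw [← h1]
          ring
  -- the second summand
  have hA' : 1 / n ≤ 1 / r := by
    rw [← hrr]
    apply one_div_le_one_div_of_le hr0
    nlinarith
  -- the first summand
  have h2b : 2 / b ≤ 60000 / n := by
    rw [div_le_div_iff₀ hb0 hn0]
    linarith
  have h1 : 2 * (1 / 10 ^ 7) * t * n + 1 ≤ t * n := by
    have h2 : 10 ^ 7 ≤ t * n := by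
      rw [htn]
      nlinarith
    nlinarith
  have he : Real.exp (t / 2) ≤ 3 := by
    have h2 : Real.exp (t / 2) ≤ Real.exp 1 := Real.exp_le_exp.2 (by linarith)
    have h3 := Real.exp_one_lt_d9
    linarith
  have hE : Real.exp (2 * (1 / 10 ^ 7) * t ^ 2 * n) * Real.exp (-(t ^ 2 * n / 270000)) ≤
      Real.exp (-(3 * (1 / 10 ^ 6) * (z * z))) := by
    rw [← Real.exp_add]
    apply Real.exp_le_exp.2
    rw [hzz]
    nlinarith
  have hE2 : 250560000 * Real.exp (-(3 * (1 / 10 ^ 6) * (z * z))) ≤ 1 := by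
    have h1 := Real.add_one_le_exp (3 * (1 / 10 ^ 6) * (z * z))
    have h2 : 250560000 ≤ Real.exp (3 * (1 / 10 ^ 6) * (z * z)) := by nlinarith
    have h3 : 0 < Real.exp (-(3 * (1 / 10 ^ 6) * (z * z))) := Real.exp_pos _
    have h4 := mul_le_mul_of_nonneg_right h2 h3.le
    have h5 : Real.exp (3 * (1 / 10 ^ 6) * (z * z)) * Real.exp (-(3 * (1 / 10 ^ 6) * (z * z))) =
        1 := by
      rw [← Real.exp_add]
      simp
    linarith
  have hB : 2 * (2 * (1 / 10 ^ 7) * t * n + 1) * Real.exp (2 * (1 / 10 ^ 7) * t ^ 2 * n) *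
      (2 / b * (2 / Real.sqrt b * (2 / t * Real.exp (t / 2) *
        Real.exp (-(t ^ 2 * n / 270000))))) ≤ 1 / r := by
    calc 2 * (2 * (1 / 10 ^ 7) * t * n + 1) * Real.exp (2 * (1 / 10 ^ 7) * t ^ 2 * n) *
      (2 / b * (2 / Real.sqrt b * (2 / t * Real.exp (t / 2) *
        Real.exp (-(t ^ 2 * n / 270000)))))
        = 2 * (2 * (1 / 10 ^ 7) * t * n + 1) * (2 / b) * (2 * (1 / Real.sqrt b)) * (2 / t) *
          Real.exp (t / 2) * (Real.exp (2 * (1 / 10 ^ 7) * t ^ 2 * n) *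
          Real.exp (-(t ^ 2 * n / 270000))) := by ring
      _ ≤ 2 * (t * n) * (60000 / n) * (2 * (174 / r)) * (2 / t) * 3 *
          Real.exp (-(3 * (1 / 10 ^ 6) * (z * z))) := by gcongr
      _ = 250560000 * Real.exp (-(3 * (1 / 10 ^ 6) * (z * z))) / r := by
          field_simp
          ring
      _ ≤ 1 / r := by
          apply div_le_div_of_nonneg_right hE2 hr0.le
  have hfin : 2 / r ≤ 5 / 2 / r := by
    apply div_le_div_of_nonneg_right (by norm_num) hr0.le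
  have e : 2 / r = 1 / r + 1 / r := by ring
  rw [mul_add]
  linarith

end Pool.LH9
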